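import Mathlib

/-!
One-step rewriting: terms, rules, the one-step relation, positive first-order formulas.
-/

set_option autoImplicit false

namespace Pool.Agent.V11232.OSR

/-- first-order terms with function symbols from `S` (the symbol `f` has arity `ar f`) and
variables from `V`; the ground terms are the terms with variables from `Empty` -/
inductive Tm (S : Type) (ar : S → ℕ) (V : Type) : Type
  | var (x : V) : Tm S ar V
  | app (f : S) (a : Fin (ar f) → Tm S ar V) : Tm S ar V

namespace Tm

variable {S : Type} {ar : S → ℕ} {V W : Type}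

/-- substitution -/
def subst (σ : V → Tm S ar W) : Tm S ar V → Tm S ar W
  | .var x => σ x
  | .app f a => .app f (fun i => (a i).subst σ)

/-- the variable `x` occurs in the term -/
def Occ (x : V) : Tm S ar V → Prop
  | .var y => y = x
  | .app _ a => ∃ i, (a i).Occ x

end Tm

variable {S : Type} {ar : S → ℕ}

/-- a pair `l → r` of terms is a rewrite rule: `l` is not a variable and every variable of `r`
occurs in `l` -/
def IsRule (ρ : Tm S ar ℕ × Tm S ar ℕ) : Prop :=
  (∀ x, ρ.1 ≠ .var x) ∧ ∀ x, ρ.2.Occ x → ρ.1.Occ x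

/-- one-step rewriting of ground terms: an instance of the left side of a rule, at the root or
inside some argument, is replaced by the same instance of the right side -/
inductive Step (R : Set (Tm S ar ℕ × Tm S ar ℕ)) : Tm S ar Empty → Tm S ar Empty → Prop
  | root (ρ : Tm S ar ℕ × Tm S ar ℕ) (h : ρ ∈ R) (σ : ℕ → Tm S ar Empty) :
      Step R (ρ.1.subst σ) (ρ.2.subst σ)
  | arg (f : S) (a : Fin (ar f) → Tm S ar Empty) (i : Fin (ar f)) (t : Tm S ar Empty)
      (h : Step R (a i) t) : Step R (.app f a) (.app f (Function.update a i t))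

/-- positive first-order formulas in the language with equality and one binary relation symbol,
with variables named by natural numbers -/
inductive PF : Type
  | eq (i j : ℕ) : PF
  | rel (i j : ℕ) : PF
  | and (a b : PF) : PF
  | or (a b : PF) : PF
  | ex (i : ℕ) (a : PF) : PF
  | all (i : ℕ) (a : PF) : PF

namespace PF

/-- the free variables -/
def fv : PF → Finset ℕ
  | .eq i j => {i, j}
  | .rel i j => {i, j}
  | .and a b => a.fv ∪ b.fv
  | .or a b => a.fv ∪ b.fv
  | .ex i a => a.fv.erase i
  | .all i a => a.fv.erase i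

/-- truth in the structure `(T, r)` under the assignment `ρ` -/
def Sat {T : Type} (r : T → T → Prop) : PF → (ℕ → T) → Prop
  | .eq i j, ρ => ρ i = ρ j
  | .rel i j, ρ => r (ρ i) (ρ j)
  | .and a b, ρ => a.Sat r ρ ∧ b.Sat r ρ
  | .or a b, ρ => a.Sat r ρ ∨ b.Sat r ρ
  | .ex i a, ρ => ∃ t, a.Sat r (Function.update ρ i t)
  | .all i a, ρ => ∀ t, a.Sat r (Function.update ρ i t)

/-- the Gödel number of a formula -/
def code : PF → ℕ
  | .eq i j => 6 * Nat.pair i j
  | .rel i j => 6 * Nat.pair i j + 1
  | .and a b => 6 * Nat.pair a.code b.code + 2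
  | .or a b => 6 * Nat.pair a.code b.code + 3
  | .ex i a => 6 * Nat.pair i a.code + 4
  | .all i a => 6 * Nat.pair i a.code + 5

/-- truth depends only on the structure up to isomorphism -/
theorem sat_iso {T U : Type} (r : T → T → Prop) (r' : U → U → Prop) (e : T ≃ U)
    (h : ∀ a b, r a b ↔ r' (e a) (e b)) (φ : PF) :
    ∀ ρ : ℕ → T, φ.Sat r ρ ↔ φ.Sat r' (fun i => e (ρ i)) := by
  have hu : ∀ (ρ : ℕ → T) (i : ℕ) (t : T),
      (fun j => e (Function.update ρ i t j)) = Function.update (fun j => e (ρ j)) i (e t) := by
    intro ρ i t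
    funext j
    by_cases hj : j = i
    · subst hj; simp
    · simp [Function.update_of_ne hj]
  induction φ with
  | eq i j => intro ρ; simp [Sat]
  | rel i j => intro ρ; simp [Sat, h]
  | and a b iha ihb => intro ρ; simp only [Sat, iha ρ, ihb ρ]
  | or a b iha ihb => intro ρ; simp only [Sat, iha ρ, ihb ρ]
  | ex i a ih =>
    intro ρ
    simp only [Sat]
    constructor
    · rintro ⟨t, ht⟩
      exact ⟨e t, by rw [← hu]; exact (ih _).1 ht⟩
    · rintro ⟨t, ht⟩
      refine ⟨e.symm t, (ih _).2 ?_⟩
      rw [hu, e.apply_symm_apply]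
      exact ht
  | all i a ih =>
    intro ρ
    simp only [Sat]
    constructor
    · intro ht t
      have := (ih _).1 (ht (e.symm t))
      rw [hu, e.apply_symm_apply] at this
      exact this
    · intro ht t
      refine (ih _).2 ?_
      rw [hu]
      exact ht (e t)

end PF

end Pool.Agent.V11232.OSR
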