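import Mathlib
import Pool.Agent.V11232.OSR.Basic
import Pool.Agent.Helper273.Machine

/-!
The rewrite system.
-/

set_option autoImplicit false

namespace Pool.Agent.V11232.OSR

open Pool.Agent.Helper273.Machine

/-- the symbols -/
inductive Sym (N L : ℕ) : Type
  | s | z | cell (p : Fin (L + 1)) | ini
  | K (i : Fin (N + 3)) (v : Fin 5) | ks (v : Fin 6) | k0 (v : Fin 7)
  | P (v : Fin 8) | Q (v : Fin 9) | tau
  deriving Fintype

/-- the arities -/
@[reducible] def ar {N L : ℕ} : Sym N L → ℕ
  | .s => 1
  | .z => 0
  | .cell _ => N + 4
  | .ini => 2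
  | .K _ _ => 1
  | .ks _ => 0
  | .k0 _ => 0
  | .P _ => 1
  | .Q _ => 1
  | .tau => 0

/-- terms over this signature -/
inductive G (N L : ℕ) (V : Type) : Type
  | var (x : V) : G N L V
  | s (x : G N L V) : G N L V
  | z : G N L V
  | cell (p : Fin (L + 1)) (x : Fin (N + 3) → G N L V) (T : G N L V) : G N L V
  | ini (a T : G N L V) : G N L V
  | K (i : Fin (N + 3)) (v : Fin 5) (x : G N L V) : G N L V
  | ks (v : Fin 6) : G N L V
  | k0 (v : Fin 7) : G N L V
  | P (v : Fin 8) (x : G N L V) : G N L V
  | Q (v : Fin 9) (x : G N L V) : G N L V
  | tau : G N L V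

variable {N L : ℕ} {V W : Type}

/-- the translation of terms -/
def e : G N L V → Tm (Sym N L) ar V
  | .var x => .var x
  | .s x => .app .s (fun _ => e x)
  | .z => .app .z (fun i => i.elim0)
  | .cell p x T => .app (.cell p) (fun i : Fin (N + 4) =>
      if h : i.val < N + 3 then e (x ⟨i.val, h⟩) else e T)
  | .ini a T => .app .ini (fun i : Fin 2 => if i = 0 then e a else e T)
  | .K i v x => .app (.K i v) (fun _ => e x)
  | .ks v => .app (.ks v) (fun i => i.elim0)
  | .k0 v => .app (.k0 v) (fun i => i.elim0)
  | .P v x => .app (.P v) (fun _ => e x)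
  | .Q v x => .app (.Q v) (fun _ => e x)
  | .tau => .app .tau (fun i => i.elim0)

/-- the inverse translation -/
def d : Tm (Sym N L) ar V → G N L V
  | .var x => .var x
  | .app .s a => .s (d (a (0 : Fin 1)))
  | .app .z _ => .z
  | .app (.cell p) a => .cell p (fun i => d (a (Fin.castSucc i : Fin (N + 4))))
      (d (a (Fin.last (N + 3) : Fin (N + 4))))
  | .app .ini a => .ini (d (a (0 : Fin 2))) (d (a (1 : Fin 2)))
  | .app (.K i v) a => .K i v (d (a (0 : Fin 1)))
  | .app (.ks v) _ => .ks v
  | .app (.k0 v) _ => .k0 v
  | .app (.P v) a => .P v (d (a (0 : Fin 1)))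
  | .app (.Q v) a => .Q v (d (a (0 : Fin 1)))
  | .app .tau _ => .tau

theorem d_e (t : G N L V) : d (e t) = t := by
  induction t with
  | var x => rfl
  | s x ih => simp only [e, d, ih]
  | z => rfl
  | cell p x T ihx ihT =>
    simp only [e, d]
    congr 1
    · funext i
      simp [ihx i]
    · simp [ihT]
  | ini a T iha ihT => simp [e, d, iha, ihT]
  | K i v x ih => simp only [e, d, ih]
  | ks v => rfl
  | k0 v => rfl
  | P v x ih => simp only [e, d, ih]
  | Q v x ih => simp only [e, d, ih]
  | tau => rfl

theorem e_d (t : Tm (Sym N L) ar V) : e (d t) = t := by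
  induction t with
  | var x => rfl
  | app f a ih =>
    cases f with
    | s =>
      simp only [e, d]
      congr 1
      funext i
      obtain rfl : i = (0 : Fin 1) := Subsingleton.elim _ _
      exact ih _
    | z =>
      simp only [e, d]
      congr 1
      funext i
      exact i.elim0
    | cell p =>
      simp only [e, d]
      congr 1
      funext i
      split_ifs with h
      · exact ih _
      · have : i = (Fin.last (N + 3) : Fin (N + 4)) := by
          apply Fin.ext
          have h1 := i.2
          simp only [Fin.val_last]
          change i.val < N + 4 at h1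
          omega
        rw [this]
        exact ih _
    | ini =>
      simp only [e, d]
      congr 1
      funext i
      have hi : i = (0 : Fin 2) ∨ i = (1 : Fin 2) := by
        have := i.2
        change i.val < 2 at this
        rcases (by omega : i.val = 0 ∨ i.val = 1) with h | h
        · left; exact Fin.ext h
        · right; exact Fin.ext h
      rcases hi with rfl | rfl
      · exact ih _
      · exact ih _
    | K j v =>
      simp only [e, d]
      congr 1
      funext i
      obtain rfl : i = (0 : Fin 1) := Subsingleton.elim _ _
      exact ih _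
    | ks v =>
      simp only [e, d]
      congr 1
      funext i
      exact i.elim0
    | k0 v =>
      simp only [e, d]
      congr 1
      funext i
      exact i.elim0
    | P v =>
      simp only [e, d]
      congr 1
      funext i
      obtain rfl : i = (0 : Fin 1) := Subsingleton.elim _ _
      exact ih _
    | Q v =>
      simp only [e, d]
      congr 1
      funext i
      obtain rfl : i = (0 : Fin 1) := Subsingleton.elim _ _
      exact ih _
    | tau =>
      simp only [e, d]
      congr 1
      funext i
      exact i.elim0

/-- the translation as an equivalence -/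
def eEquiv : G N L V ≃ Tm (Sym N L) ar V := ⟨e, d, d_e, e_d⟩

/-- substitution -/
def G.subst (σ : V → G N L W) : G N L V → G N L W
  | .var x => σ x
  | .s x => .s (x.subst σ)
  | .z => .z
  | .cell p x T => .cell p (fun i => (x i).subst σ) (T.subst σ)
  | .ini a T => .ini (a.subst σ) (T.subst σ)
  | .K i v x => .K i v (x.subst σ)
  | .ks v => .ks v
  | .k0 v => .k0 v
  | .P v x => .P v (x.subst σ)
  | .Q v x => .Q v (x.subst σ)
  | .tau => .tau

theorem e_subst (σ : V → G N L W) (t : G N L V) :
    e (t.subst σ) = (e t).subst (fun x => e (σ x)) := by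
  induction t with
  | var x => rfl
  | s x ih => simp only [G.subst, e, Tm.subst, ih]
  | z =>
    simp only [G.subst, e, Tm.subst]
    congr 1
    funext i
    exact i.elim0
  | cell p x T ihx ihT =>
    simp only [G.subst, e, Tm.subst]
    congr 1
    funext i
    split_ifs with h
    · exact ihx _
    · exact ihT
  | ini a T iha ihT =>
    simp only [G.subst, e, Tm.subst]
    congr 1
    funext i
    split_ifs with h
    · exact iha
    · exact ihT
  | K i v x ih => simp only [G.subst, e, Tm.subst, ih]
  | ks v =>
    simp only [G.subst, e, Tm.subst]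
    congr 1
    funext i
    exact i.elim0
  | k0 v =>
    simp only [G.subst, e, Tm.subst]
    congr 1
    funext i
    exact i.elim0
  | P v x ih => simp only [G.subst, e, Tm.subst, ih]
  | Q v x ih => simp only [G.subst, e, Tm.subst, ih]
  | tau =>
    simp only [G.subst, e, Tm.subst]
    congr 1
    funext i
    exact i.elim0

end Pool.Agent.V11232.OSR
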