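import Mathlib
import Pool.Agent.V11232.OSR.Sys

/-!
The rules of the system and the one-step relation on the translated terms.
-/

set_option autoImplicit false

namespace Pool.Agent.V11232.OSR

open Pool.Agent.Helper273.Machine

variable {N L : ℕ} {V W : Type}

/-- variables -/
def isv : G N L V → Prop
  | .var _ => True
  | _ => False

/-- the version of the constant `k0` that replaces a term -/
def cutv : G N L V → Option (Fin 7)
  | .var _ => none
  | .s _ => none
  | .k0 _ => none
  | .ini _ _ => some 1
  | _ => some 0

/-- terms that may be replaced by `tau` -/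
def hasTau : G N L V → Prop
  | .var _ => False
  | .ini _ _ => False
  | .k0 _ => False
  | .tau => False
  | _ => True

/-- not a variable and not of the form `s x` -/
def nons : G N L V → Prop
  | .var _ => False
  | .s _ => False
  | _ => True

/-- the next configuration -/
def nxt (ins : Fin (L + 1) → MI (N + 3) (Fin (L + 1))) (p : Fin (L + 1))
    (x : Fin (N + 3) → G N L V) : Fin (L + 1) × (Fin (N + 3) → G N L V) :=
  match ins p with
  | .inc r q => (q, Function.update x r (.s (x r)))
  | .dec r q q' =>
    match x r with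
    | .s y => (q, Function.update x r y)
    | _ => (q', x)
  | .jmp q => (q, x)

/-- actual and expected registers -/
def chk (ins : Fin (L + 1) → MI (N + 3) (Fin (L + 1))) : G N L V → Fin (N + 3) → G N L V × G N L V
  | .cell p x T, i =>
    match T with
    | .cell q w _ => if q = (nxt ins p x).1 then (w i, (nxt ins p x).2 i) else (.z, .s .z)
    | _ => if p = Fin.last L then (x i, .z) else (.z, .s .z)
  | .ini a T, i =>
    match T with
    | .cell q w _ =>
      if q = 0 then (w i, if i = 0 then a else if i = 1 then w i else .z) else (.z, .s .z)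
    | _ => (.z, .s .z)
  | _, _ => (.z, .z)

/-- a cell or an initial term without arguments that are variables -/
def ok : G N L V → Prop
  | .cell _ x T => (∀ i, ¬ isv (x i)) ∧ ¬ isv T
  | .ini a T => ¬ isv a ∧ ¬ isv T
  | _ => False

/-- rewriting at the root -/
inductive Rt (ins : Fin (L + 1) → MI (N + 3) (Fin (L + 1))) : G N L V → G N L V → Prop
  | s_ks (x : G N L V) : Rt ins (.s x) (.ks 0)
  | cutg (t : G N L V) (j : Fin 7) (h : cutv t = some j) : Rt ins t (.k0 j)
  | tau (t : G N L V) (h : hasTau t) : Rt ins t .tau
  | kcyc (i : Fin (N + 3)) (v : Fin 5) (x : G N L V) : Rt ins (.K i v x) (.K i (v + 1) x)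
  | kscyc (v : Fin 6) : Rt ins (.ks v) (.ks (v + 1))
  | k0cyc (v : Fin 7) : Rt ins (.k0 v) (.k0 (v + 1))
  | pcyc (v : Fin 8) (x : G N L V) : Rt ins (.P v x) (.P (v + 1) x)
  | qcyc (v : Fin 9) (x : G N L V) : Rt ins (.Q v x) (.Q (v + 1) x)
  | ks0 (j : Fin 7) : Rt ins (.ks 0) (.k0 j)
  | iniP (a T : G N L V) : Rt ins (.ini a T) (.P 0 a)
  | chkA (t : G N L V) (i : Fin (N + 3)) (h : ok t) : Rt ins t (.K i 0 (chk ins t i).1)
  | chkE (t : G N L V) (i : Fin (N + 3)) (h : ok t) : Rt ins t (.K i 0 (chk ins t i).2)
  | peelP (x : G N L V) : Rt ins (.P 0 (.s x)) (.Q 0 x)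
  | peelQ (x : G N L V) : Rt ins (.Q 0 (.s x)) (.P 0 x)
  | topP (x : G N L V) (h : nons x) : Rt ins (.P 0 x) (.K 0 0 .z)
  | topQ (x : G N L V) (h : nons x) : Rt ins (.Q 0 x) (.K 0 0 .z)

variable (ins : Fin (L + 1) → MI (N + 3) (Fin (L + 1)))

theorem subst_update (σ : V → G N L W) (x : Fin (N + 3) → G N L V) (r : Fin (N + 3))
    (y : G N L V) : (fun i => (Function.update x r y i).subst σ) =
      Function.update (fun i => (x i).subst σ) r (y.subst σ) := by
  funext j
  by_cases hj : j = r
  · subst hj; simp
  · simp [Function.update_of_ne hj]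

theorem nxt_subst (σ : V → G N L W) (p : Fin (L + 1)) (x : Fin (N + 3) → G N L V)
    (hx : ∀ i, ¬ isv (x i)) :
    nxt ins p (fun i => (x i).subst σ) = ((nxt ins p x).1, fun i => ((nxt ins p x).2 i).subst σ) := by
  unfold nxt
  cases h : ins p with
  | inc r q =>
    simp only
    rw [subst_update]
    rfl
  | dec r q q' =>
    simp only
    have h1 := hx r
    cases h2 : x r with
    | var y => rw [h2] at h1; exact absurd trivial h1
    | s y => simp only [G.subst, subst_update]
    | _ => simp only [G.subst]
  | jmp q => simp only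

theorem chk_subst (σ : V → G N L W) (t : G N L V) (i : Fin (N + 3)) (h : ok t) :
    chk ins (t.subst σ) i = ((chk ins t i).1.subst σ, (chk ins t i).2.subst σ) := by
  cases t with
  | cell p x T =>
    obtain ⟨hx, hT⟩ := h
    cases T with
    | var y => exact absurd trivial hT
    | cell q w U =>
      simp only [G.subst, chk, nxt_subst ins σ p x hx]
      split_ifs <;> simp [G.subst]
    | _ =>
      simp only [G.subst, chk]
      split_ifs <;> simp [G.subst]
  | ini a T =>
    obtain ⟨ha, hT⟩ := h
    cases T with
    | var y => exact absurd trivial hT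
    | cell q w U =>
      simp only [G.subst, chk]
      split_ifs <;> simp [G.subst]
    | _ => simp [G.subst, chk]
  | _ => exact absurd h (by simp [ok])

theorem isv_subst (σ : V → G N L W) (hσ : ∀ x, ¬ isv (σ x)) (t : G N L V) : ¬ isv (t.subst σ) := by
  cases t with
  | var x => exact hσ x
  | _ => simp [G.subst, isv]

theorem nons_subst (σ : V → G N L W) (t : G N L V) (h : nons t) : nons (t.subst σ) := by
  cases t with
  | var x => exact absurd h (by simp [nons])
  | s x => exact absurd h (by simp [nons])
  | _ => simp [G.subst, nons]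

theorem cutv_subst (σ : V → G N L W) (t : G N L V) (j : Fin 7) (h : cutv t = some j) :
    cutv (t.subst σ) = some j := by
  cases t with
  | var x => exact absurd h (by simp [cutv])
  | _ => exact h

theorem hasTau_subst (σ : V → G N L W) (t : G N L V) (h : hasTau t) : hasTau (t.subst σ) := by
  cases t with
  | var x => exact absurd h (by simp [hasTau])
  | _ => exact h

theorem ok_subst (σ : V → G N L W) (hσ : ∀ x, ¬ isv (σ x)) (t : G N L V) (h : ok t) :
    ok (t.subst σ) := by
  cases t with
  | cell p x T => exact ⟨fun i => isv_subst σ hσ _, isv_subst σ hσ _⟩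
  | ini a T => exact ⟨isv_subst σ hσ _, isv_subst σ hσ _⟩
  | _ => exact absurd h (by simp [ok])

theorem rt_subst (σ : V → G N L W) (hσ : ∀ x, ¬ isv (σ x)) {l r : G N L V} (h : Rt ins l r) :
    Rt ins (l.subst σ) (r.subst σ) := by
  cases h with
  | s_ks x => exact .s_ks _
  | cutg t j h => exact .cutg _ j (cutv_subst σ _ j h)
  | tau t h => exact .tau _ (hasTau_subst σ _ h)
  | kcyc i v x => exact .kcyc i v _
  | kscyc v => exact .kscyc v
  | k0cyc v => exact .k0cyc v
  | pcyc v x => exact .pcyc v _
  | qcyc v x => exact .qcyc v _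
  | ks0 j => exact .ks0 j
  | iniP a T => exact .iniP _ _
  | chkA t i h =>
    have := Rt.chkA (ins := ins) (l.subst σ) i (ok_subst σ hσ _ h)
    rw [chk_subst ins σ _ i h] at this
    exact this
  | chkE t i h =>
    have := Rt.chkE (ins := ins) (l.subst σ) i (ok_subst σ hσ _ h)
    rw [chk_subst ins σ _ i h] at this
    exact this
  | peelP x => exact .peelP _
  | peelQ x => exact .peelQ _
  | topP x h => exact .topP _ (nons_subst σ _ h)
  | topQ x h => exact .topQ _ (nons_subst σ _ h)

/-- the symbol at the root -/
def root : G N L Empty → Sym N L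
  | .var x => x.elim
  | .s _ => .s
  | .z => .z
  | .cell p _ _ => .cell p
  | .ini _ _ => .ini
  | .K i v _ => .K i v
  | .ks v => .ks v
  | .k0 v => .k0 v
  | .P v _ => .P v
  | .Q v _ => .Q v
  | .tau => .tau

/-- a symbol with distinct variables as arguments -/
def q1 (j : ℕ) : Sym N L → G N L ℕ
  | .s => .s (.var (Nat.pair j 0))
  | .z => .z
  | .cell p => .cell p (fun i => .var (Nat.pair j (i.val + 1))) (.var (Nat.pair j 0))
  | .ini => .ini (.var (Nat.pair j 1)) (.var (Nat.pair j 0))
  | .K i v => .K i v (.var (Nat.pair j 0))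
  | .ks v => .ks v
  | .k0 v => .k0 v
  | .P v => .P v (.var (Nat.pair j 0))
  | .Q v => .Q v (.var (Nat.pair j 0))
  | .tau => .tau

/-- patterns of depth two; `g i` is the symbol at the root of the `i`-th argument -/
def q2 (g : Fin (N + 4) → Sym N L) : Sym N L → G N L ℕ
  | .s => .s (q1 0 (g 0))
  | .z => .z
  | .cell p => .cell p (fun i => q1 (i.val + 1) (g i.succ)) (q1 0 (g 0))
  | .ini => .ini (q1 1 (g 1)) (q1 0 (g 0))
  | .K i v => .K i v (q1 0 (g 0))
  | .ks v => .ks v
  | .k0 v => .k0 v
  | .P v => .P v (q1 0 (g 0))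
  | .Q v => .Q v (q1 0 (g 0))
  | .tau => .tau

/-- the arguments of a ground term -/
def arg : G N L Empty → ℕ → G N L Empty
  | .s x, _ => x
  | .cell _ x T, j => if h : j = 0 then T else if h' : j - 1 < N + 3 then x ⟨j - 1, h'⟩ else T
  | .ini a T, j => if j = 0 then T else a
  | .K _ _ x, _ => x
  | .P _ x, _ => x
  | .Q _ x, _ => x
  | _, _ => .z

/-- the substitution that gives a ground term from its pattern -/
def sg (t : G N L Empty) (n : ℕ) : G N L Empty := arg (arg t n.unpair.1) n.unpair.2

/-- the pattern of a ground term -/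
def pat (t : G N L Empty) : G N L ℕ := q2 (fun j => root (arg t j.val)) (root t)

theorem q1_subst (σ : ℕ → G N L Empty) (j : ℕ) (t : G N L Empty)
    (h : ∀ m, σ (Nat.pair j m) = arg t m) : (q1 j (root t)).subst σ = t := by
  cases t with
  | var x => exact x.elim
  | s x => simp [root, q1, G.subst, h, arg]
  | cell p x T =>
    simp only [root, q1, G.subst, h, arg]
    congr 1
    funext i
    simp
  | ini a T => simp [root, q1, G.subst, h, arg]
  | K i v x => simp [root, q1, G.subst, h, arg]
  | P v x => simp [root, q1, G.subst, h, arg]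
  | Q v x => simp [root, q1, G.subst, h, arg]
  | _ => simp [root, q1, G.subst]

theorem pat_subst (t : G N L Empty) : (pat t).subst (sg t) = t := by
  have key : ∀ j, (q1 j (root (arg t j))).subst (sg t) = arg t j := by
    intro j
    exact q1_subst _ j _ (fun m => by simp [sg])
  cases t with
  | var x => exact x.elim
  | s x => simpa [pat, root, q2, G.subst, arg] using key 0
  | cell p x T =>
    have h1 : ∀ i : Fin (N + 3), (q1 (i.val + 1) (root (arg (.cell p x T) (i.val + 1)))).subst
        (sg (.cell p x T)) = x i := by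
      intro i
      rw [key]
      simp [arg]
    change G.cell p (fun i : Fin (N + 3) => (q1 (i.val + 1)
      (root (arg (.cell p x T) (i.val + 1)))).subst (sg (.cell p x T)))
      ((q1 0 (root (arg (.cell p x T) 0))).subst (sg (.cell p x T))) = _
    rw [key 0]
    congr 1
    funext i
    exact h1 i
  | ini a T =>
    have h0 := key 0
    have h1 := key 1
    simp only [pat, root, q2, G.subst]
    congr 1
  | K i v x => simpa [pat, root, q2, G.subst, arg] using key 0
  | P v x => simpa [pat, root, q2, G.subst, arg] using key 0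
  | Q v x => simpa [pat, root, q2, G.subst, arg] using key 0
  | _ => simp [pat, root, q2, G.subst]

end Pool.Agent.V11232.OSR
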