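import Mathlib
import Pool.Agent.V11232.OSR.Rules

/-!
The rule set: finiteness, validity, and the one-step relation.
-/

set_option autoImplicit false

namespace Pool.Agent.V11232.OSR

open Pool.Agent.Helper273.Machine

variable {N L : ℕ} {V W : Type}
variable (ins : Fin (L + 1) → MI (N + 3) (Fin (L + 1)))

theorem cutv_pat (t : G N L Empty) : cutv (pat t) = cutv t := by
  cases t with
  | var x => exact x.elim
  | _ => simp [pat, root, q2, cutv]

theorem hasTau_pat (t : G N L Empty) (h : hasTau t) : hasTau (pat t) := by
  cases t with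
  | var x => exact x.elim
  | ini a T => exact absurd h (by simp [hasTau])
  | k0 v => exact absurd h (by simp [hasTau])
  | tau => exact absurd h (by simp [hasTau])
  | _ => simp [pat, root, q2, hasTau]

theorem isv_q1 (j : ℕ) (f : Sym N L) : ¬ isv (q1 j f) := by
  cases f <;> simp [q1, isv]

theorem ok_pat (t : G N L Empty) (h : ok t) : ok (pat t) := by
  cases t with
  | var x => exact x.elim
  | cell p x T => exact ⟨fun i => isv_q1 _ _, isv_q1 _ _⟩
  | ini a T => exact ⟨isv_q1 _ _, isv_q1 _ _⟩
  | _ => exact absurd h (by simp [ok])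

theorem nons_q1 (j : ℕ) (x : G N L Empty) (h : nons x) : nons (q1 j (root x)) := by
  cases x with
  | var x => exact x.elim
  | s x => exact absurd h (by simp [nons])
  | _ => simp [root, q1, nons]

theorem rt_lift {t u : G N L Empty} (h : Rt ins t u) :
    ∃ r, Rt ins (pat t) r ∧ r.subst (sg t) = u := by
  have hp := pat_subst t
  cases h with
  | s_ks x => exact ⟨.ks 0, .s_ks _, rfl⟩
  | cutg t j h => exact ⟨.k0 j, .cutg _ j (by rw [cutv_pat]; exact h), rfl⟩
  | tau t h => exact ⟨.tau, .tau _ (hasTau_pat _ h), rfl⟩
  | kcyc i v x =>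
    refine ⟨.K i (v + 1) (q1 0 (root x)), .kcyc i v _, ?_⟩
    have h1 : (q1 0 (root x)).subst (sg (.K i v x)) = x := by
      have := hp
      simp only [pat, q2, root, G.subst, G.K.injEq, true_and] at this
      exact this
    rw [G.subst, h1]
  | kscyc v => exact ⟨.ks (v + 1), .kscyc v, rfl⟩
  | k0cyc v => exact ⟨.k0 (v + 1), .k0cyc v, rfl⟩
  | pcyc v x =>
    refine ⟨.P (v + 1) (q1 0 (root x)), .pcyc v _, ?_⟩
    have h1 : (q1 0 (root x)).subst (sg (.P v x)) = x := by
      have := hp
      simp only [pat, q2, root, G.subst, G.P.injEq, true_and] at this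
      exact this
    rw [G.subst, h1]
  | qcyc v x =>
    refine ⟨.Q (v + 1) (q1 0 (root x)), .qcyc v _, ?_⟩
    have h1 : (q1 0 (root x)).subst (sg (.Q v x)) = x := by
      have := hp
      simp only [pat, q2, root, G.subst, G.Q.injEq, true_and] at this
      exact this
    rw [G.subst, h1]
  | ks0 j => exact ⟨.k0 j, .ks0 j, rfl⟩
  | iniP a T =>
    refine ⟨.P 0 (q1 1 (root a)), .iniP _ _, ?_⟩
    have h1 : (q1 1 (root a)).subst (sg (.ini a T)) = a :=
      q1_subst _ 1 a (fun m => by simp [sg, arg])
    rw [G.subst, h1]
  | chkA t i h =>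
    refine ⟨_, .chkA (pat t) i (ok_pat t h), ?_⟩
    have := chk_subst ins (sg t) (pat t) i (ok_pat t h)
    rw [pat_subst] at this
    rw [G.subst, this]
  | chkE t i h =>
    refine ⟨_, .chkE (pat t) i (ok_pat t h), ?_⟩
    have := chk_subst ins (sg t) (pat t) i (ok_pat t h)
    rw [pat_subst] at this
    rw [G.subst, this]
  | peelP x =>
    refine ⟨.Q 0 (.var (Nat.pair 0 0)), .peelP _, ?_⟩
    simp [G.subst, sg, arg]
  | peelQ x =>
    refine ⟨.P 0 (.var (Nat.pair 0 0)), .peelQ _, ?_⟩
    simp [G.subst, sg, arg]
  | topP x h => exact ⟨.K 0 0 .z, .topP _ (nons_q1 0 x h), rfl⟩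
  | topQ x h => exact ⟨.K 0 0 .z, .topQ _ (nons_q1 0 x h), rfl⟩

/-- the rewrite system -/
def RS : Set (Tm (Sym N L) ar ℕ × Tm (Sym N L) ar ℕ) :=
  {ρ | ∃ (f : Sym N L) (g : Fin (N + 4) → Sym N L) (r : G N L ℕ),
    Rt ins (q2 g f) r ∧ ρ = (e (q2 g f), e r)}

/-- the next version -/
def cyc1 : G N L V → G N L V
  | .K i v x => .K i (v + 1) x
  | .ks v => .ks (v + 1)
  | .k0 v => .k0 (v + 1)
  | .P v x => .P (v + 1) x
  | .Q v x => .Q (v + 1) x
  | _ => .z

/-- an argument -/
def a1 : G N L V → G N L V
  | .ini a _ => a
  | _ => .z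

/-- an argument of an argument -/
def a2 : G N L V → G N L V
  | .P _ (.s x) => x
  | .Q _ (.s x) => x
  | _ => .z

theorem rt_finite (l : G N L V) : {r | Rt ins l r}.Finite := by
  have : {r | Rt ins l r} ⊆ ({.ks 0, .tau, .K 0 0 .z, cyc1 l, .P 0 (a1 l), .Q 0 (a2 l),
      .P 0 (a2 l)} ∪ Set.range G.k0) ∪ (Set.range (fun i => G.K i 0 (chk ins l i).1) ∪
      Set.range (fun i => G.K i 0 (chk ins l i).2)) := by
    intro r hr
    cases hr with
    | s_ks x => simp
    | cutg t j h => simp
    | tau t h => simp
    | kcyc i v x => simp [cyc1]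
    | kscyc v => simp [cyc1]
    | k0cyc v => simp
    | pcyc v x => simp [cyc1]
    | qcyc v x => simp [cyc1]
    | ks0 j => simp
    | iniP a T => simp [a1]
    | chkA t i h => right; left; exact ⟨i, rfl⟩
    | chkE t i h => right; right; exact ⟨i, rfl⟩
    | peelP x => simp [a2]
    | peelQ x => simp [a2]
    | topP x h => simp
    | topQ x h => simp
  refine Set.Finite.subset ?_ this
  refine Set.Finite.union (Set.Finite.union ?_ (Set.finite_range _))
    (Set.Finite.union (Set.finite_range _) (Set.finite_range _))
  exact Set.toFinite _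

theorem rs_finite : (RS ins).Finite := by
  have : RS ins = ⋃ (f : Sym N L), ⋃ (g : Fin (N + 4) → Sym N L),
      (fun r => (e (q2 g f), e r)) '' {r | Rt ins (q2 g f) r} := by
    ext ρ
    simp only [RS, Set.mem_ofPred_eq, Set.mem_iUnion, Set.mem_image]
    constructor
    · rintro ⟨f, g, r, h, rfl⟩
      exact ⟨f, g, r, h, rfl⟩
    · rintro ⟨f, g, r, h, rfl⟩
      exact ⟨f, g, r, h, rfl⟩
  rw [this]
  refine Set.finite_iUnion fun f => Set.finite_iUnion fun g => ?_
  exact (rt_finite ins _).image _

theorem occ_var (x v : V) : (e (G.var (N := N) (L := L) x)).Occ v ↔ x = v := by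
  simp only [e, Tm.Occ]

theorem occ_s (x : G N L V) (v : V) : (e (G.s x)).Occ v ↔ (e x).Occ v := by
  simp only [e, Tm.Occ]
  exact ⟨fun ⟨_, h⟩ => h, fun h => ⟨(0 : Fin 1), h⟩⟩

theorem occ_K (i : Fin (N + 3)) (w : Fin 5) (x : G N L V) (v : V) :
    (e (G.K i w x)).Occ v ↔ (e x).Occ v := by
  simp only [e, Tm.Occ]
  exact ⟨fun ⟨_, h⟩ => h, fun h => ⟨(0 : Fin 1), h⟩⟩

theorem occ_P (w : Fin 8) (x : G N L V) (v : V) :
    (e (G.P w x)).Occ v ↔ (e x).Occ v := by
  simp only [e, Tm.Occ]
  exact ⟨fun ⟨_, h⟩ => h, fun h => ⟨(0 : Fin 1), h⟩⟩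

theorem occ_Q (w : Fin 9) (x : G N L V) (v : V) :
    (e (G.Q w x)).Occ v ↔ (e x).Occ v := by
  simp only [e, Tm.Occ]
  exact ⟨fun ⟨_, h⟩ => h, fun h => ⟨(0 : Fin 1), h⟩⟩

theorem occ_z (v : V) : ¬ (e (G.z : G N L V)).Occ v := by
  simp only [e, Tm.Occ]
  rintro ⟨i, _⟩
  exact i.elim0

theorem occ_ks (w : Fin 6) (v : V) : ¬ (e (G.ks w : G N L V)).Occ v := by
  simp only [e, Tm.Occ]
  rintro ⟨i, _⟩
  exact i.elim0

theorem occ_k0 (w : Fin 7) (v : V) : ¬ (e (G.k0 w : G N L V)).Occ v := by
  simp only [e, Tm.Occ]
  rintro ⟨i, _⟩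
  exact i.elim0

theorem occ_tau (v : V) : ¬ (e (G.tau : G N L V)).Occ v := by
  simp only [e, Tm.Occ]
  rintro ⟨i, _⟩
  exact i.elim0

theorem occ_ini (a T : G N L V) (v : V) :
    (e (G.ini a T)).Occ v ↔ (e a).Occ v ∨ (e T).Occ v := by
  simp only [e, Tm.Occ]
  constructor
  · rintro ⟨i, h⟩
    split_ifs at h with hi
    · exact .inl h
    · exact .inr h
  · rintro (h | h)
    · exact ⟨(0 : Fin 2), by simpa using h⟩
    · exact ⟨(1 : Fin 2), by simpa using h⟩

theorem occ_cell (p : Fin (L + 1)) (x : Fin (N + 3) → G N L V) (T : G N L V) (v : V) :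
    (e (G.cell p x T)).Occ v ↔ (∃ i, (e (x i)).Occ v) ∨ (e T).Occ v := by
  simp only [e, Tm.Occ]
  constructor
  · rintro ⟨i, h⟩
    split_ifs at h with hi
    · exact .inl ⟨_, h⟩
    · exact .inr h
  · rintro (⟨i, h⟩ | h)
    · refine ⟨(Fin.castSucc i : Fin (N + 4)), ?_⟩
      simpa using h
    · refine ⟨(Fin.last (N + 3) : Fin (N + 4)), ?_⟩
      simpa using h

theorem occ_nxt (p : Fin (L + 1)) (x : Fin (N + 3) → G N L V) (i : Fin (N + 3)) (v : V)
    (h : (e ((nxt ins p x).2 i)).Occ v) : ∃ j, (e (x j)).Occ v := by
  unfold nxt at h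
  cases hp : ins p with
  | inc r q =>
    rw [hp] at h
    simp only at h
    by_cases hi : i = r
    · subst hi
      rw [Function.update_self, occ_s] at h
      exact ⟨_, h⟩
    · rw [Function.update_of_ne hi] at h
      exact ⟨_, h⟩
  | dec r q q' =>
    rw [hp] at h
    simp only at h
    cases hx : x r with
    | s y =>
      rw [hx] at h
      simp only at h
      by_cases hi : i = r
      · subst hi
        rw [Function.update_self] at h
        exact ⟨i, by rw [hx, occ_s]; exact h⟩
      · rw [Function.update_of_ne hi] at h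
        exact ⟨_, h⟩
    | _ =>
      rw [hx] at h
      exact ⟨_, h⟩
  | jmp q =>
    rw [hp] at h
    exact ⟨_, h⟩

theorem occ_chk (t : G N L V) (i : Fin (N + 3)) (v : V)
    (h : (e (chk ins t i).1).Occ v ∨ (e (chk ins t i).2).Occ v) : (e t).Occ v := by
  cases t with
  | cell p x T =>
    rw [occ_cell]
    cases T with
    | cell q w U =>
      simp only [chk] at h
      split_ifs at h with h1
      · rcases h with h | h
        · right
          rw [occ_cell]
          exact .inl ⟨_, h⟩
        · left
          exact occ_nxt ins p x i v h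
      · rcases h with h | h
        · exact absurd h (occ_z v)
        · rw [occ_s] at h
          exact absurd h (occ_z v)
    | _ =>
      simp only [chk] at h
      split_ifs at h with h1
      · rcases h with h | h
        · exact .inl ⟨_, h⟩
        · exact absurd h (occ_z v)
      · rcases h with h | h
        · exact absurd h (occ_z v)
        · rw [occ_s] at h
          exact absurd h (occ_z v)
  | ini a T =>
    rw [occ_ini]
    cases T with
    | cell q w U =>
      simp only [chk] at h
      split_ifs at h with h1 h2 h3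
      all_goals first
        | (rcases h with h | h
           · exact absurd h (occ_z v)
           · rw [occ_s] at h
             exact absurd h (occ_z v))
        | (rcases h with h | h
           · exact .inr ((occ_cell _ _ _ _).2 (.inl ⟨_, h⟩))
           · first
             | exact .inl h
             | exact .inr ((occ_cell _ _ _ _).2 (.inl ⟨_, h⟩))
             | exact absurd h (occ_z v))
    | _ =>
      simp only [chk] at h
      rcases h with h | h
      · exact absurd h (occ_z v)
      · rw [occ_s] at h
        exact absurd h (occ_z v)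
  | _ =>
    simp only [chk] at h
    rcases h with h | h <;> exact absurd h (occ_z v)

theorem occ_rt {l r : G N L V} (h : Rt ins l r) (v : V) (hv : (e r).Occ v) : (e l).Occ v := by
  cases h with
  | s_ks x => exact absurd hv (occ_ks _ _)
  | cutg t j h => exact absurd hv (occ_k0 _ _)
  | tau t h => exact absurd hv (occ_tau _)
  | kcyc i w x => rw [occ_K] at hv ⊢; exact hv
  | kscyc w => exact absurd hv (occ_ks _ _)
  | k0cyc w => exact absurd hv (occ_k0 _ _)
  | pcyc w x => rw [occ_P] at hv ⊢; exact hv
  | qcyc w x => rw [occ_Q] at hv ⊢; exact hv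
  | ks0 j => exact absurd hv (occ_k0 _ _)
  | iniP a T => rw [occ_P] at hv; rw [occ_ini]; exact .inl hv
  | chkA t i h => rw [occ_K] at hv; exact occ_chk ins l i v (.inl hv)
  | chkE t i h => rw [occ_K] at hv; exact occ_chk ins l i v (.inr hv)
  | peelP x => rw [occ_Q] at hv; rw [occ_P, occ_s]; exact hv
  | peelQ x => rw [occ_P] at hv; rw [occ_Q, occ_s]; exact hv
  | topP x h => rw [occ_K] at hv; exact absurd hv (occ_z _)
  | topQ x h => rw [occ_K] at hv; exact absurd hv (occ_z _)

theorem rs_isRule (ρ : Tm (Sym N L) ar ℕ × Tm (Sym N L) ar ℕ) (h : ρ ∈ RS ins) : IsRule ρ := by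
  obtain ⟨f, g, r, hr, rfl⟩ := h
  refine ⟨?_, fun x hx => occ_rt ins hr x hx⟩
  intro x
  cases f <;> simp [q2, e]

/-- one-step rewriting of the translated ground terms -/
inductive Stp : G N L Empty → G N L Empty → Prop
  | root {t u : G N L Empty} (h : Rt ins t u) : Stp t u
  | s {x y : G N L Empty} (h : Stp x y) : Stp (.s x) (.s y)
  | cellx (p : Fin (L + 1)) (x : Fin (N + 3) → G N L Empty) (T : G N L Empty) (i : Fin (N + 3))
      (y : G N L Empty) (h : Stp (x i) y) : Stp (.cell p x T) (.cell p (Function.update x i y) T)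
  | cellT (p : Fin (L + 1)) (x : Fin (N + 3) → G N L Empty) {T U : G N L Empty} (h : Stp T U) :
      Stp (.cell p x T) (.cell p x U)
  | inia {a b : G N L Empty} (T : G N L Empty) (h : Stp a b) : Stp (.ini a T) (.ini b T)
  | iniT (a : G N L Empty) {T U : G N L Empty} (h : Stp T U) : Stp (.ini a T) (.ini a U)
  | K (i : Fin (N + 3)) (v : Fin 5) {x y : G N L Empty} (h : Stp x y) : Stp (.K i v x) (.K i v y)
  | P (v : Fin 8) {x y : G N L Empty} (h : Stp x y) : Stp (.P v x) (.P v y)
  | Q (v : Fin 9) {x y : G N L Empty} (h : Stp x y) : Stp (.Q v x) (.Q v y)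

theorem e_subst' (σ : V → Tm (Sym N L) ar W) (t : G N L V) :
    (e t).subst σ = e (t.subst (fun x => d (σ x))) := by
  rw [e_subst]
  congr 1
  funext x
  rw [e_d]

theorem stp_of_step (t u : Tm (Sym N L) ar Empty) (h : Step (RS ins) t u) :
    Stp ins (d t) (d u) := by
  induction h with
  | root ρ h σ =>
    obtain ⟨f, g, r, hr, rfl⟩ := h
    simp only
    rw [e_subst', e_subst', d_e, d_e]
    refine .root (rt_subst ins _ ?_ hr)
    intro x hx
    cases h : d (σ x) with
    | var y => exact y.elim
    | _ => rw [h] at hx; exact hx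
  | arg f a i t h ih =>
    cases f with
    | s =>
      obtain rfl : i = (0 : Fin 1) := Subsingleton.elim _ _
      have h1 : d (Tm.app (Sym.s : Sym N L) (Function.update a (0 : Fin 1) t)) = .s (d t) := by
        simp [d]
      rw [h1]
      exact .s ih
    | z => exact i.elim0
    | cell p =>
      have hi : i = (Fin.last (N + 3) : Fin (N + 4)) ∨ ∃ j : Fin (N + 3), i = (Fin.castSucc j : Fin (N + 4)) := by
        refine Fin.lastCases (n := N + 3) (motive := fun i : Fin (N + 4) => i = (Fin.last (N + 3) : Fin (N + 4)) ∨ ∃ j : Fin (N + 3), i = (Fin.castSucc j : Fin (N + 4))) (.inl rfl) (fun j => .inr ⟨j, rfl⟩) i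
      rcases hi with rfl | ⟨j, rfl⟩
      · have h1 : d (Tm.app (Sym.cell p : Sym N L)
            (Function.update a (Fin.last (N + 3) : Fin (N + 4)) t)) =
            .cell p (fun i => d (a (Fin.castSucc i : Fin (N + 4)))) (d t) := by
          simp only [d]
          congr 1
          · funext j
            rw [Function.update_of_ne (Fin.castSucc_lt_last j).ne]
          · rw [Function.update_self]
        rw [h1]
        exact .cellT p _ ih
      · have h1 : d (Tm.app (Sym.cell p : Sym N L)
            (Function.update a (Fin.castSucc j : Fin (N + 4)) t)) =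
            .cell p (Function.update (fun i => d (a (Fin.castSucc i : Fin (N + 4)))) j (d t))
              (d (a (Fin.last (N + 3) : Fin (N + 4)))) := by
          simp only [d]
          congr 1
          · funext l
            by_cases hl : l = j
            · subst hl
              rw [Function.update_self, Function.update_self]
            · rw [Function.update_of_ne hl, Function.update_of_ne]
              intro h2
              exact hl (Fin.castSucc_injective _ h2)
          · rw [Function.update_of_ne (Fin.castSucc_lt_last j).ne']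
        rw [h1]
        exact .cellx p _ _ j _ ih
    | ini =>
      have hi : i = (0 : Fin 2) ∨ i = (1 : Fin 2) := by
        have := i.2
        change i.val < 2 at this
        rcases (by omega : i.val = 0 ∨ i.val = 1) with h | h
        · left; exact Fin.ext h
        · right; exact Fin.ext h
      rcases hi with rfl | rfl
      · have h1 : d (Tm.app (Sym.ini : Sym N L) (Function.update a (0 : Fin 2) t)) =
            .ini (d t) (d (a (1 : Fin 2))) := by
          simp only [d]
          congr 1
        rw [h1]
        exact .inia _ ih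
      · have h1 : d (Tm.app (Sym.ini : Sym N L) (Function.update a (1 : Fin 2) t)) =
            .ini (d (a (0 : Fin 2))) (d t) := by
          simp only [d]
          congr 1
        rw [h1]
        exact .iniT _ ih
    | K j v =>
      obtain rfl : i = (0 : Fin 1) := Subsingleton.elim _ _
      have h1 : d (Tm.app (Sym.K j v : Sym N L) (Function.update a (0 : Fin 1) t)) =
          .K j v (d t) := by
        simp [d]
      rw [h1]
      exact .K _ _ ih
    | ks v => exact i.elim0
    | k0 v => exact i.elim0
    | P v =>
      obtain rfl : i = (0 : Fin 1) := Subsingleton.elim _ _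
      have h1 : d (Tm.app (Sym.P v : Sym N L) (Function.update a (0 : Fin 1) t)) =
          .P v (d t) := by
        simp [d]
      rw [h1]
      exact .P _ ih
    | Q v =>
      obtain rfl : i = (0 : Fin 1) := Subsingleton.elim _ _
      have h1 : d (Tm.app (Sym.Q v : Sym N L) (Function.update a (0 : Fin 1) t)) =
          .Q v (d t) := by
        simp [d]
      rw [h1]
      exact .Q _ ih
    | tau => exact i.elim0

theorem update_one {α : Type} (x y : α) :
    Function.update (fun _ : Fin 1 => x) 0 y = fun _ => y := by
  funext i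
  obtain rfl : i = 0 := Subsingleton.elim _ _
  simp

theorem step_of_stp {t u : G N L Empty} (h : Stp ins t u) : Step (RS ins) (e t) (e u) := by
  induction h with
  | @root t u h =>
    obtain ⟨r, hr, hu⟩ := rt_lift ins h
    have := Step.root (R := RS ins) (e (pat t), e r) ⟨_, _, r, hr, rfl⟩ (fun x => e (sg t x))
    simp only at this
    rw [← e_subst, ← e_subst, pat_subst, hu] at this
    exact this
  | @s x y h ih =>
    have := Step.arg (R := RS ins) (.s : Sym N L) (fun _ => e x) (0 : Fin 1) (e y) ih
    have h2 := update_one (e x) (e y)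
    have h3 : Step (RS ins) (.app (.s : Sym N L) (fun _ => e x)) (.app (.s : Sym N L) (fun _ => e y)) := by
      rw [← h2]; exact this
    exact h3
  | cellx p x T i y h ih =>
    have h1 : e (G.cell p (Function.update x i y) T) = Tm.app (Sym.cell p : Sym N L)
        (Function.update (fun j : Fin (N + 4) =>
          if h : j.val < N + 3 then e (x ⟨j.val, h⟩) else e T) (Fin.castSucc i : Fin (N + 4))
            (e y)) := by
      simp only [e]
      congr 1
      funext j
      by_cases hj : j = (Fin.castSucc i : Fin (N + 4))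
      · subst hj
        simp
      · rw [Function.update_of_ne hj]
        split_ifs with h
        · rw [Function.update_of_ne]
          intro h2
          apply hj
          apply Fin.ext
          rw [Fin.val_castSucc, ← h2]
        · rfl
    rw [h1]
    simp only [e]
    refine Step.arg _ _ _ _ ?_
    simpa using ih
  | @cellT p x T U h ih =>
    have h1 : e (G.cell p x U) = Tm.app (Sym.cell p : Sym N L)
        (Function.update (fun j : Fin (N + 4) =>
          if h : j.val < N + 3 then e (x ⟨j.val, h⟩) else e T) (Fin.last (N + 3) : Fin (N + 4))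
            (e U)) := by
      simp only [e]
      congr 1
      funext j
      by_cases hj : j = (Fin.last (N + 3) : Fin (N + 4))
      · subst hj
        simp
      · rw [Function.update_of_ne hj]
        have hlt : j.val < N + 3 := by
          have h3 := j.2
          change j.val < N + 4 at h3
          rcases (by omega : j.val < N + 3 ∨ j.val = N + 3) with h4 | h4
          · exact h4
          · exact absurd (Fin.ext h4) hj
        rw [dif_pos hlt, dif_pos hlt]
    rw [h1]
    simp only [e]
    refine Step.arg _ _ _ _ ?_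
    simpa using ih
  | @inia a b T h ih =>
    have h1 : e (G.ini b T) = Tm.app (Sym.ini : Sym N L)
        (Function.update (fun i : Fin 2 => if i = 0 then e a else e T) (0 : Fin 2) (e b)) := by
      simp only [e]
      congr 1
      funext j
      by_cases hj : j = (0 : Fin 2)
      · subst hj
        simp
      · rw [Function.update_of_ne hj]
        simp [hj]
    rw [h1]
    simp only [e]
    refine Step.arg _ _ _ _ ?_
    simpa using ih
  | @iniT a T U h ih =>
    have h1 : e (G.ini a U) = Tm.app (Sym.ini : Sym N L)
        (Function.update (fun i : Fin 2 => if i = 0 then e a else e T) (1 : Fin 2) (e U)) := by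
      simp only [e]
      congr 1
      funext j
      by_cases hj : j = (1 : Fin 2)
      · subst hj
        simp
      · rw [Function.update_of_ne hj]
        have : j = (0 : Fin 2) := by
          have h3 := j.2
          change j.val < 2 at h3
          rcases (by omega : j.val = 0 ∨ j.val = 1) with h4 | h4
          · exact Fin.ext h4
          · exact absurd (Fin.ext h4) hj
        simp [this]
    rw [h1]
    simp only [e]
    refine Step.arg _ _ _ _ ?_
    simpa using ih
  | @K i v x y h ih =>
    have := Step.arg (R := RS ins) (.K i v : Sym N L) (fun _ => e x) (0 : Fin 1) (e y) ih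
    have h2 := update_one (e x) (e y)
    have h3 : Step (RS ins) (.app (.K i v : Sym N L) (fun _ => e x))
        (.app (.K i v : Sym N L) (fun _ => e y)) := by
      rw [← h2]; exact this
    exact h3
  | @P v x y h ih =>
    have := Step.arg (R := RS ins) (.P v : Sym N L) (fun _ => e x) (0 : Fin 1) (e y) ih
    have h2 := update_one (e x) (e y)
    have h3 : Step (RS ins) (.app (.P v : Sym N L) (fun _ => e x))
        (.app (.P v : Sym N L) (fun _ => e y)) := by
      rw [← h2]; exact this
    exact h3
  | @Q v x y h ih =>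
    have := Step.arg (R := RS ins) (.Q v : Sym N L) (fun _ => e x) (0 : Fin 1) (e y) ih
    have h2 := update_one (e x) (e y)
    have h3 : Step (RS ins) (.app (.Q v : Sym N L) (fun _ => e x))
        (.app (.Q v : Sym N L) (fun _ => e y)) := by
      rw [← h2]; exact this
    exact h3

theorem step_iff (t u : G N L Empty) : Stp ins t u ↔ Step (RS ins) (eEquiv t) (eEquiv u) := by
  constructor
  · exact step_of_stp ins
  · intro h
    have := stp_of_step ins _ _ h
    change Stp ins (d (e t)) (d (e u)) at this
    rwa [d_e, d_e] at this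

end Pool.Agent.V11232.OSR
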