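import Mathlib
import Pool.Agent.V11232.OSR.Rules2

/-!
Weights, colours and closed walks.
-/

set_option autoImplicit false

namespace Pool.Agent.V11232.OSR

open Pool.Agent.Helper273.Machine

variable {N L : ℕ}
variable (ins : Fin (L + 1) → MI (N + 3) (Fin (L + 1)))

/-- additive weights -/
def wt (w : Sym N L → ℕ) : G N L Empty → ℕ
  | .var x => x.elim
  | .s x => w .s + wt w x
  | .z => w .z
  | .cell p x T => w (.cell p) + (∑ i, wt w (x i)) + wt w T
  | .ini a T => w .ini + wt w a + wt w T
  | .K i v x => w (.K i v) + wt w x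
  | .ks v => w (.ks v)
  | .k0 v => w (.k0 v)
  | .P v x => w (.P v) + wt w x
  | .Q v x => w (.Q v) + wt w x
  | .tau => w .tau

theorem sum_update (w : Sym N L → ℕ) (x : Fin (N + 3) → G N L Empty) (i : Fin (N + 3))
    (y : G N L Empty) :
    (∑ j, wt w (Function.update x i y j)) + wt w (x i) = (∑ j, wt w (x j)) + wt w y := by
  have h : (fun j => wt w (Function.update x i y j)) =
      Function.update (fun j => wt w (x j)) i (wt w y) := by
    funext j
    by_cases hj : j = i
    · subst hj; simp
    · simp [Function.update_of_ne hj]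
  rw [h, Finset.sum_update_of_mem (Finset.mem_univ i)]
  have h2 := Finset.sum_eq_add_sum_sdiff_singleton_of_mem (s := Finset.univ)
    (Finset.mem_univ i) (fun j => wt w (x j))
  omega

theorem le_sum_wt (w : Sym N L → ℕ) (x : Fin (N + 3) → G N L Empty) (i : Fin (N + 3)) :
    wt w (x i) ≤ ∑ j, wt w (x j) :=
  Finset.single_le_sum (f := fun j => wt w (x j)) (fun _ _ => Nat.zero_le _) (Finset.mem_univ i)

theorem stp_redex {t u : G N L Empty} (h : Stp ins t u) :
    ∃ t0 u0, Rt ins t0 u0 ∧ ∀ w : Sym N L → ℕ,
      wt w t + wt w u0 = wt w u + wt w t0 ∧ wt w t0 ≤ wt w t := by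
  induction h with
  | @root t u h => exact ⟨t, u, h, fun w => by omega⟩
  | cellx p x T i y h ih =>
    obtain ⟨t0, u0, h0, h1⟩ := ih
    refine ⟨t0, u0, h0, fun w => ?_⟩
    have := h1 w
    have h2 := sum_update w x i y
    have h3 := le_sum_wt w x i
    simp only [wt]
    omega
  | s h ih =>
    obtain ⟨t0, u0, h0, h1⟩ := ih
    exact ⟨t0, u0, h0, fun w => by have := h1 w; simp only [wt]; omega⟩
  | cellT p x h ih =>
    obtain ⟨t0, u0, h0, h1⟩ := ih
    exact ⟨t0, u0, h0, fun w => by have := h1 w; simp only [wt]; omega⟩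
  | inia T h ih =>
    obtain ⟨t0, u0, h0, h1⟩ := ih
    exact ⟨t0, u0, h0, fun w => by have := h1 w; simp only [wt]; omega⟩
  | iniT a h ih =>
    obtain ⟨t0, u0, h0, h1⟩ := ih
    exact ⟨t0, u0, h0, fun w => by have := h1 w; simp only [wt]; omega⟩
  | K i v h ih =>
    obtain ⟨t0, u0, h0, h1⟩ := ih
    exact ⟨t0, u0, h0, fun w => by have := h1 w; simp only [wt]; omega⟩
  | P v h ih =>
    obtain ⟨t0, u0, h0, h1⟩ := ih
    exact ⟨t0, u0, h0, fun w => by have := h1 w; simp only [wt]; omega⟩
  | Q v h ih =>
    obtain ⟨t0, u0, h0, h1⟩ := ih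
    exact ⟨t0, u0, h0, fun w => by have := h1 w; simp only [wt]; omega⟩

/-- the weights of the measure -/
def w0 : Sym N L → ℕ
  | .s => 3
  | .z => 3
  | .cell _ => 10
  | .ini => 10
  | .K _ _ => 2
  | .ks _ => 3
  | .k0 _ => 1
  | .P _ => 5
  | .Q _ => 5
  | .tau => 2

/-- the colour indicators -/
def col (c : Fin 5) : Sym N L → ℕ
  | .K _ _ => if c = 0 then 1 else 0
  | .ks _ => if c = 1 then 1 else 0
  | .k0 _ => if c = 2 then 1 else 0
  | .P _ => if c = 3 then 1 else 0
  | .Q _ => if c = 4 then 1 else 0
  | _ => 0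

/-- the versions -/
def ver (c : Fin 5) : Sym N L → ℕ
  | .K _ v => if c = 0 then v.val else 0
  | .ks v => if c = 1 then v.val else 0
  | .k0 v => if c = 2 then v.val else 0
  | .P v => if c = 3 then v.val else 0
  | .Q v => if c = 4 then v.val else 0
  | _ => 0

/-- number of symbols of a colour -/
abbrev cnt (c : Fin 5) (t : G N L Empty) : ℕ := wt (col c) t

theorem mu_pos (t : G N L Empty) : 1 ≤ wt w0 t := by
  cases t with
  | var x => exact x.elim
  | _ => simp only [wt, w0]; omega

theorem nxt_mu (p : Fin (L + 1)) (x : Fin (N + 3) → G N L Empty) (i : Fin (N + 3)) :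
    wt w0 ((nxt ins p x).2 i) ≤ (∑ j, wt w0 (x j)) + 3 := by
  have hi := le_sum_wt w0 x i
  unfold nxt
  cases hp : ins p with
  | inc r q =>
    simp only
    by_cases h : i = r
    · subst h
      rw [Function.update_self]
      simp only [wt, w0]
      omega
    · rw [Function.update_of_ne h]
      omega
  | dec r q q' =>
    simp only
    cases hx : x r with
    | s y =>
      simp only
      by_cases h : i = r
      · subst h
        rw [Function.update_self]
        rw [hx] at hi
        simp only [wt, w0] at hi
        omega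
      · rw [Function.update_of_ne h]
        omega
    | _ => simp only; omega
  | jmp q => simp only; omega

theorem chk_mu (t : G N L Empty) (i : Fin (N + 3)) (h : ok t) :
    wt w0 (chk ins t i).1 + 2 < wt w0 t ∧ wt w0 (chk ins t i).2 + 2 < wt w0 t := by
  cases t with
  | cell p x T =>
    have h1 := nxt_mu ins p x i
    have h2 := le_sum_wt w0 x i
    cases T with
    | cell q w U =>
      have h3 := le_sum_wt w0 w i
      simp only [chk]
      split_ifs with h4
      · simp only [wt, w0] at *
        omega
      · simp only [wt, w0]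
        omega
    | _ =>
      simp only [chk]
      split_ifs with h4
      · simp only [wt, w0] at *
        omega
      · simp only [wt, w0]
        omega
  | ini a T =>
    cases T with
    | cell q w U =>
      have h3 := le_sum_wt w0 w i
      simp only [chk]
      split_ifs with h4 h5 h6
      all_goals
        simp only [wt, w0] at *
        omega
    | _ =>
      simp only [chk, wt, w0]
      omega
  | _ => exact absurd h (by simp [ok])

/-- the facts about a step that changes the version of a symbol of colour `c` -/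
def CycF (c : Fin 5) (t u : G N L Empty) : Prop :=
  (∀ c' : Fin 5, wt (col c') u = wt (col c') t) ∧
  (∀ c' : Fin 5, wt (ver c') u ≡ wt (ver c') t + (if c' = c then 1 else 0) [MOD c'.val + 5]) ∧
  wt w0 u = wt w0 t ∧ 0 < wt (col c) t

theorem fin_succ_mod {n : ℕ} [NeZero n] (v : Fin n) (m : ℕ) :
    (v + 1).val + m ≡ v.val + m + 1 [MOD n] := by
  have h1 : (v + 1).val ≡ v.val + 1 [MOD n] := by
    rw [Fin.val_add]
    have h2 : (v.val + (1 : Fin n).val) % n ≡ v.val + (1 : Fin n).val [MOD n] := Nat.mod_modEq _ _
    refine h2.trans (Nat.ModEq.add_left _ ?_)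
    rw [Fin.val_one']
    exact Nat.mod_modEq _ _
  have := h1.add_right m
  refine this.trans ?_
  rw [show v.val + 1 + m = v.val + m + 1 by omega]

theorem rt_class {t u : G N L Empty} (h : Rt ins t u) :
    (∃ c, CycF c t u) ∨ wt w0 u < wt w0 t := by
  cases h with
  | s_ks x => right; have := mu_pos x; simp only [wt, w0]; omega
  | cutg t j h =>
    right
    cases t with
    | var x => exact x.elim
    | s x => simp [cutv] at h
    | k0 v => simp [cutv] at h
    | _ => simp only [wt, w0]; omega
  | tau t h =>
    right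
    cases t with
    | var x => exact x.elim
    | ini a T => exact absurd h (by simp [hasTau])
    | k0 v => exact absurd h (by simp [hasTau])
    | tau => exact absurd h (by simp [hasTau])
    | s x => simp only [wt, w0]; omega
    | K i v x => have := mu_pos x; simp only [wt, w0]; omega
    | _ => simp only [wt, w0]; omega
  | kcyc i v x =>
    left
    refine ⟨0, ?_, ?_, ?_, ?_⟩
    · intro c'; simp [wt, col]
    · intro c'
      fin_cases c'
      · have := fin_succ_mod v (wt (ver 0) x)
        simpa [wt, ver] using this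
      all_goals simp [wt, ver, Nat.ModEq]
    · simp [wt, w0]
    · simp [wt, col]
  | kscyc v =>
    left
    refine ⟨1, ?_, ?_, ?_, ?_⟩
    · intro c'; simp [wt, col]
    · intro c'
      fin_cases c'
      all_goals first
        | (simp [wt, ver, Nat.ModEq]; done)
        | (have := fin_succ_mod v 0
           simpa [wt, ver] using this)
    · simp [wt, w0]
    · simp [wt, col]
  | k0cyc v =>
    left
    refine ⟨2, ?_, ?_, ?_, ?_⟩
    · intro c'; simp [wt, col]
    · intro c'
      fin_cases c'
      all_goals first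
        | (simp [wt, ver, Nat.ModEq]; done)
        | (have := fin_succ_mod v 0
           simpa [wt, ver] using this)
    · simp [wt, w0]
    · simp [wt, col]
  | pcyc v x =>
    left
    refine ⟨3, ?_, ?_, ?_, ?_⟩
    · intro c'; simp [wt, col]
    · intro c'
      fin_cases c'
      all_goals first
        | (simp [wt, ver, Nat.ModEq]; done)
        | (have := fin_succ_mod v (wt (ver 3) x)
           simpa [wt, ver] using this)
    · simp [wt, w0]
    · simp [wt, col]
  | qcyc v x =>
    left
    refine ⟨4, ?_, ?_, ?_, ?_⟩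
    · intro c'; simp [wt, col]
    · intro c'
      fin_cases c'
      all_goals first
        | (simp [wt, ver, Nat.ModEq]; done)
        | (have := fin_succ_mod v (wt (ver 4) x)
           simpa [wt, ver] using this)
    · simp [wt, w0]
    · simp [wt, col]
  | ks0 j => right; simp only [wt, w0]; omega
  | iniP a T => right; simp only [wt, w0]; omega
  | chkA t i h => right; have := (chk_mu ins t i h).1; simp only [wt, w0] at *; omega
  | chkE t i h => right; have := (chk_mu ins t i h).2; simp only [wt, w0] at *; omega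
  | peelP x => right; simp only [wt, w0]; omega
  | peelQ x => right; simp only [wt, w0]; omega
  | topP x h => right; have := mu_pos x; simp only [wt, w0]; omega
  | topQ x h => right; have := mu_pos x; simp only [wt, w0]; omega

theorem stp_class {t u : G N L Empty} (h : Stp ins t u) :
    (∃ c, CycF c t u) ∨ wt w0 u < wt w0 t := by
  obtain ⟨t0, u0, h0, h1⟩ := stp_redex ins h
  rcases rt_class ins h0 with ⟨c, h2, h3, h4, h5⟩ | h2
  · left
    refine ⟨c, fun c' => ?_, fun c' => ?_, ?_, ?_⟩
    · have := h1 (col c'); have := h2 c'; omega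
    · have h6 := (h1 (ver c')).1
      have h7 := h3 c'
      have h8 : wt (ver c') u + wt (ver c') t0 ≡
          wt (ver c') t + (if c' = c then 1 else 0) + wt (ver c') t0 [MOD c'.val + 5] := by
        rw [← h6]
        have := h7.add_left (wt (ver c') t)
        refine this.trans ?_
        rw [show wt (ver c') t + (wt (ver c') t0 + (if c' = c then 1 else 0)) =
          wt (ver c') t + (if c' = c then 1 else 0) + wt (ver c') t0 by omega]
      exact Nat.ModEq.add_right_cancel' _ h8
    · have := h1 w0; omega
    · have := (h1 (col c)).2; omega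
  · right
    have := h1 w0; omega

/-- walks of length `n` -/
def Walk {T : Type} (r : T → T → Prop) : ℕ → T → T → Prop
  | 0, a, b => a = b
  | n + 1, a, b => ∃ c, r a c ∧ Walk r n c b

theorem walk_inv (n : ℕ) : ∀ a b : G N L Empty, Walk (Stp ins) n a b →
    wt w0 b ≤ wt w0 a ∧ (wt w0 b = wt w0 a → ∃ M : Fin 5 → ℕ, ∑ c, M c = n ∧
      (∀ c : Fin 5, wt (ver c) b ≡ wt (ver c) a + M c [MOD c.val + 5]) ∧
      (∀ c, cnt c b = cnt c a) ∧ ∀ c, 0 < M c → 0 < cnt c a) := by
  induction n with
  | zero =>
    intro a b h
    obtain rfl : a = b := h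
    refine ⟨le_refl _, fun _ => ⟨fun _ => 0, by simp, fun c => ?_, fun _ => rfl, ?_⟩⟩
    · simp only [add_zero]; exact Nat.ModEq.refl _
    · intro c h; exact absurd h (by simp)
  | succ n ih =>
    rintro a b ⟨m, h1, h2⟩
    obtain ⟨h3, h4⟩ := ih m b h2
    rcases stp_class ins h1 with ⟨k, h5, h6, h7, h8⟩ | h5
    · refine ⟨by omega, fun h9 => ?_⟩
      obtain ⟨M, h10, h11, h12, h13⟩ := h4 (by omega)
      refine ⟨fun c => (if c = k then 1 else 0) + M c, ?_, ?_, ?_, ?_⟩
      · rw [Finset.sum_add_distrib, h10]
        simp only [Finset.sum_ite_eq', Finset.mem_univ, if_true]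
        omega
      · intro c
        refine (h11 c).trans ?_
        have := (h6 c).add_right (M c)
        refine this.trans ?_
        rw [add_assoc]
      · intro c
        rw [h12 c]
        exact h5 c
      · intro c hc
        by_cases hck : c = k
        · subst hck; exact h8
        · simp only [if_neg hck, zero_add] at hc
          have h14 : 0 < wt (col c) m := h13 c hc
          change 0 < wt (col c) a
          rw [← h5 c]
          exact h14
    · refine ⟨by omega, fun h9 => ?_⟩
      exfalso
      omega

theorem cnt_pos_of_walk (c : Fin 5) (a : G N L Empty) (h : Walk (Stp ins) (c.val + 5) a a) :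
    0 < cnt c a := by
  obtain ⟨_, h1⟩ := walk_inv ins _ a a h
  obtain ⟨M, h2, h3, _, h5⟩ := h1 rfl
  apply h5
  have h6 : ∀ k : Fin 5, (k.val + 5) ∣ M k := by
    intro k
    have := h3 k
    have h7 : M k ≡ 0 [MOD k.val + 5] := by
      have h8 : wt (ver k) a + M k ≡ wt (ver k) a + 0 [MOD k.val + 5] := by
        simpa using this.symm
      exact Nat.ModEq.add_left_cancel' _ h8
    exact (Nat.modEq_zero_iff_dvd).1 h7
  rw [Fin.sum_univ_five] at h2
  have e0 := h6 0
  have e1 := h6 1
  have e2 := h6 2
  have e3 := h6 3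
  have e4 := h6 4
  simp only [Fin.val_zero, Fin.val_one] at e0 e1
  change 7 ∣ M 2 at e2
  change 8 ∣ M 3 at e3
  change 9 ∣ M 4 at e4
  have hc := c.2
  have f0 : M 0 = 0 ∨ M 0 = 5 := by omega
  have f1 : M 1 = 0 ∨ M 1 = 6 := by omega
  have f2 : M 2 = 0 ∨ M 2 = 7 := by omega
  have f3 : M 3 = 0 ∨ M 3 = 8 := by omega
  have f4 : M 4 = 0 ∨ M 4 = 9 := by omega
  clear e0 e1 e2 e3 e4 h6 hc
  fin_cases c
  · change 0 < M 0; change _ = 5 at h2; omega
  · change 0 < M 1; change _ = 6 at h2; omega
  · change 0 < M 2; change _ = 7 at h2; omega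
  · change 0 < M 3; change _ = 8 at h2; omega
  · change 0 < M 4; change _ = 9 at h2; omega

theorem walk_map {T : Type} (r : T → T → Prop) (f : T → T) (hf : ∀ a b, r a b → r (f a) (f b))
    (n : ℕ) : ∀ a b, Walk r n a b → Walk r n (f a) (f b) := by
  induction n with
  | zero => intro a b h; exact congrArg f h
  | succ n ih =>
    rintro a b ⟨c, h1, h2⟩
    exact ⟨f c, hf _ _ h1, ih _ _ h2⟩

theorem walk_K (i : Fin (N + 3)) (v : Fin 5) (x : G N L Empty) :
    Walk (Stp ins) 5 (.K i v x) (.K i v x) := by
  refine ⟨_, .root (.kcyc i v x), _, .root (.kcyc _ _ _), _, .root (.kcyc _ _ _), _,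
    .root (.kcyc _ _ _), _, .root (.kcyc _ _ _), ?_⟩
  fin_cases v <;> rfl

theorem walk_ks (v : Fin 6) : Walk (Stp ins) 6 (.ks v) (.ks v) := by
  refine ⟨_, .root (.kscyc v), _, .root (.kscyc _), _, .root (.kscyc _), _,
    .root (.kscyc _), _, .root (.kscyc _), _, .root (.kscyc _), ?_⟩
  fin_cases v <;> rfl

theorem walk_k0 (v : Fin 7) : Walk (Stp ins) 7 (.k0 v) (.k0 v) := by
  refine ⟨_, .root (.k0cyc v), _, .root (.k0cyc _), _, .root (.k0cyc _), _,
    .root (.k0cyc _), _, .root (.k0cyc _), _, .root (.k0cyc _), _, .root (.k0cyc _), ?_⟩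
  fin_cases v <;> rfl

theorem walk_P (v : Fin 8) (x : G N L Empty) : Walk (Stp ins) 8 (.P v x) (.P v x) := by
  refine ⟨_, .root (.pcyc v x), _, .root (.pcyc _ _), _, .root (.pcyc _ _), _,
    .root (.pcyc _ _), _, .root (.pcyc _ _), _, .root (.pcyc _ _), _, .root (.pcyc _ _), _,
    .root (.pcyc _ _), ?_⟩
  fin_cases v <;> rfl

theorem walk_Q (v : Fin 9) (x : G N L Empty) : Walk (Stp ins) 9 (.Q v x) (.Q v x) := by
  refine ⟨_, .root (.qcyc v x), _, .root (.qcyc _ _), _, .root (.qcyc _ _), _,
    .root (.qcyc _ _), _, .root (.qcyc _ _), _, .root (.qcyc _ _), _, .root (.qcyc _ _), _,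
    .root (.qcyc _ _), _, .root (.qcyc _ _), ?_⟩
  fin_cases v <;> rfl

theorem walk_of_cnt (c : Fin 5) (t : G N L Empty) (h : 0 < cnt c t) :
    Walk (Stp ins) (c.val + 5) t t := by
  induction t with
  | var x => exact x.elim
  | s x ih =>
    simp only [cnt, wt, col, zero_add] at h
    exact walk_map _ G.s (fun a b h => .s h) _ _ _ (ih h)
  | z => exact absurd h (by simp [cnt, wt, col])
  | cell p x T ihx ihT =>
    simp only [cnt, wt, col, zero_add] at h
    by_cases hT : 0 < wt (col c) T
    · exact walk_map _ (G.cell p x) (fun a b h => .cellT p x h) _ _ _ (ihT hT)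
    · have h1 : 0 < ∑ i, wt (col c) (x i) := by omega
      obtain ⟨i, _, hi⟩ := Finset.exists_ne_zero_of_sum_ne_zero (by omega :
        ∑ i, wt (col c) (x i) ≠ 0)
      have h2 := walk_map (Stp ins) (fun y => G.cell p (Function.update x i y) T) (fun a b h => by
        have h3 : Stp ins (.cell p (Function.update x i a) T)
            (.cell p (Function.update (Function.update x i a) i b) T) :=
          .cellx p _ T i b (by rw [Function.update_self]; exact h)
        rw [Function.update_idem] at h3
        exact h3) _ _ _ (ihx i (by simp only [cnt]; omega))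
      simpa using h2
  | ini a T iha ihT =>
    simp only [cnt, wt, col, zero_add] at h
    by_cases hT : 0 < wt (col c) T
    · exact walk_map _ (G.ini a) (fun x y h => .iniT a h) _ _ _ (ihT hT)
    · exact walk_map _ (fun y => G.ini y T) (fun x y h => .inia T h) _ _ _
        (iha (by simp only [cnt]; omega))
  | K i v x ih =>
    by_cases hx : 0 < cnt c x
    · exact walk_map _ (G.K i v) (fun x y h => .K i v h) _ _ _ (ih hx)
    · have h1 : c = 0 := by
        by_contra h2
        simp only [cnt, wt, col, if_neg h2] at h hx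
        omega
      subst h1
      exact walk_K ins i v x
  | ks v =>
    have h1 : c = 1 := by
      by_contra h2
      simp only [cnt, wt, col, if_neg h2] at h
      omega
    subst h1
    exact walk_ks ins v
  | k0 v =>
    have h1 : c = 2 := by
      by_contra h2
      simp only [cnt, wt, col, if_neg h2] at h
      omega
    subst h1
    exact walk_k0 ins v
  | P v x ih =>
    by_cases hx : 0 < cnt c x
    · exact walk_map _ (G.P v) (fun x y h => .P v h) _ _ _ (ih hx)
    · have h1 : c = 3 := by
        by_contra h2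
        simp only [cnt, wt, col, if_neg h2] at h hx
        omega
      subst h1
      exact walk_P ins v x
  | Q v x ih =>
    by_cases hx : 0 < cnt c x
    · exact walk_map _ (G.Q v) (fun x y h => .Q v h) _ _ _ (ih hx)
    · have h1 : c = 4 := by
        by_contra h2
        simp only [cnt, wt, col, if_neg h2] at h hx
        omega
      subst h1
      exact walk_Q ins v x
  | tau => exact absurd h (by simp [cnt, wt, col])

theorem walk_iff (c : Fin 5) (t : G N L Empty) :
    Walk (Stp ins) (c.val + 5) t t ↔ 0 < cnt c t :=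
  ⟨cnt_pos_of_walk ins c t, walk_of_cnt ins c t⟩

end Pool.Agent.V11232.OSR
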