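import Mathlib
import Pool.Agent.V11232.OSR.Colors

/-!
If the machine does not accept, the sentence is true.
-/

set_option autoImplicit false

namespace Pool.Agent.V11232.OSR

open Pool.Agent.Helper273.Machine

variable {N L : ℕ}
variable (ins : Fin (L + 1) → MI (N + 3) (Fin (L + 1)))

/-- the number of leading symbols `s` -/
def val : G N L Empty → ℕ
  | .s x => val x + 1
  | _ => 0

/-- the term `s^m(x)` -/
def pw : ℕ → G N L Empty → G N L Empty
  | 0, x => x
  | m + 1, x => .s (pw m x)

/-- the error certificate -/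
def Err (t : G N L Empty) : Prop :=
  ∃ Y1 Y2 Z1 Z2, Stp ins t Y1 ∧ 0 < cnt 0 Y1 ∧ Stp ins t Y2 ∧ 0 < cnt 0 Y2 ∧
    Stp ins Y1 Z1 ∧ 0 < cnt 1 Z1 ∧ Stp ins Y2 Z2 ∧ 0 < cnt 2 Z2 ∧ 0 < cnt 0 Z2 ∧ Stp ins Z1 Z2

/-- the counting certificate -/
def Psi : ℕ → Bool → G N L Empty → Prop
  | 0, b, Y => ∃ Y', Stp ins Y Y' ∧ 0 < cnt (if b then 3 else 4) Y'
  | j + 1, b, Y => (∃ F, Stp ins Y F ∧ 0 < cnt 0 F) ∨
      ∃ Y', Stp ins Y Y' ∧ 0 < cnt (if b then 3 else 4) Y' ∧ Psi j (!b) Y'

/-- the wrong input certificate -/
def Mis (n : ℕ) (y : G N L Empty) : Prop :=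
  ∃ Y, Stp ins y Y ∧ 0 < cnt 3 Y ∧ Psi ins n false Y

/-- the meaning of the sentence -/
def Body (n : ℕ) : Prop :=
  ∃ v0 v1 v2 v3 v4 v5 v6 u : G N L Empty,
    (Stp ins v0 v1 ∧ Stp ins v1 v2 ∧ Stp ins v2 v3 ∧ Stp ins v3 v4 ∧ Stp ins v4 v5 ∧
      Stp ins v5 v6 ∧ Stp ins v6 v0) ∧
    ∀ y : G N L Empty, (y = u ∨ y = v0 ∨ y = v1 ∨ y = v2 ∨ y = v3 ∨ y = v4 ∨ y = v5 ∨ y = v6) ∨
      Stp ins y u ∨ Mis ins n y ∨ Err ins y

theorem err_cell (p : Fin (L + 1)) (x : Fin (N + 3) → G N L Empty) {T : G N L Empty}
    (h : Err ins T) : Err ins (.cell p x T) := by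
  obtain ⟨Y1, Y2, Z1, Z2, h1, h2, h3, h4, h5, h6, h7, h8, h9, h10⟩ := h
  have key : ∀ (c : Fin 5) (Y : G N L Empty), 0 < cnt c Y → 0 < cnt c (.cell p x Y) := by
    intro c Y h; simp only [cnt, wt] at *; omega
  exact ⟨.cell p x Y1, .cell p x Y2, .cell p x Z1, .cell p x Z2, .cellT p x h1, key _ _ h2,
    .cellT p x h3, key _ _ h4, .cellT p x h5, key _ _ h6, .cellT p x h7, key _ _ h8, key _ _ h9,
    .cellT p x h10⟩

theorem err_ini (a : G N L Empty) {T : G N L Empty}
    (h : Err ins T) : Err ins (.ini a T) := by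
  obtain ⟨Y1, Y2, Z1, Z2, h1, h2, h3, h4, h5, h6, h7, h8, h9, h10⟩ := h
  have key : ∀ (c : Fin 5) (Y : G N L Empty), 0 < cnt c Y → 0 < cnt c (.ini a Y) := by
    intro c Y h; simp only [cnt, wt] at *; omega
  exact ⟨.ini a Y1, .ini a Y2, .ini a Z1, .ini a Z2, .iniT a h1, key _ _ h2,
    .iniT a h3, key _ _ h4, .iniT a h5, key _ _ h6, .iniT a h7, key _ _ h8, key _ _ h9,
    .iniT a h10⟩

theorem stp_pw (m : ℕ) {x y : G N L Empty} (h : Stp ins x y) : Stp ins (pw m x) (pw m y) := by
  induction m with
  | zero => exact h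
  | succ m ih => exact .s ih

theorem cnt_pw (c : Fin 5) (m : ℕ) (x : G N L Empty) : cnt c (pw m x) = cnt c x := by
  induction m with
  | zero => rfl
  | succ m ih => simp only [pw, cnt, wt, col, zero_add] at *; exact ih

theorem cut_s (m : ℕ) : ∀ X : G N L Empty, m < val X → Stp ins X (pw m (.ks 0)) := by
  induction m with
  | zero =>
    intro X h
    cases X with
    | s x => exact .root (.s_ks x)
    | _ => simp [val] at h
  | succ m ih =>
    intro X h
    cases X with
    | s x => exact .s (ih x (by simp only [val] at h; omega))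
    | _ => simp [val] at h

theorem cut_0 (m : ℕ) : ∀ X : G N L Empty, val X = m → ∃ j, Stp ins X (pw m (.k0 j)) := by
  induction m with
  | zero =>
    intro X h
    cases X with
    | var x => exact x.elim
    | s x => simp [val] at h
    | k0 v => exact ⟨v + 1, .root (.k0cyc v)⟩
    | ini a T => exact ⟨1, .root (.cutg _ _ rfl)⟩
    | _ => exact ⟨0, .root (.cutg _ _ rfl)⟩
  | succ m ih =>
    intro X h
    cases X with
    | s x =>
      obtain ⟨j, hj⟩ := ih x (by simp only [val] at h; omega)
      exact ⟨j, .s hj⟩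
    | _ => simp [val] at h

theorem err_of_lt {t X W : G N L Empty} (i : Fin (N + 3)) (h1 : Rt ins t (.K i 0 X))
    (h2 : Rt ins t (.K i 0 W)) (h : val W < val X) : Err ins t := by
  obtain ⟨j, hj⟩ := cut_0 ins _ W rfl
  refine ⟨.K i 0 X, .K i 0 W, .K i 0 (pw (val W) (.ks 0)), .K i 0 (pw (val W) (.k0 j)),
    .root h1, ?_, .root h2, ?_, .K _ _ (cut_s ins _ X h), ?_, .K _ _ hj, ?_, ?_,
    .K _ _ (stp_pw ins _ (.root (.ks0 j)))⟩
  · simp only [cnt, wt, col]; simp
  · simp only [cnt, wt, col]; simp
  · have := cnt_pw 1 (val W) (.ks 0 : G N L Empty)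
    simp only [cnt, wt, col] at *
    rw [this]; simp
  · have := cnt_pw 2 (val W) (.k0 j : G N L Empty)
    simp only [cnt, wt, col] at *
    rw [this]; simp
  · simp only [cnt, wt, col]; simp

theorem err_of_ne {t : G N L Empty} (i : Fin (N + 3)) (ht : ok t)
    (h : val (chk ins t i).1 ≠ val (chk ins t i).2) : Err ins t := by
  rcases lt_or_gt_of_ne h with h | h
  · exact err_of_lt ins i (.chkE t i ht) (.chkA t i ht) h
  · exact err_of_lt ins i (.chkA t i ht) (.chkE t i ht) h

theorem not_isv (t : G N L Empty) : ¬ isv t := by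
  cases t with
  | var x => exact x.elim
  | _ => simp [isv]

/-- acceptance -/
def Acc (p : Fin (L + 1)) (R : Fin (N + 3) → ℕ) : Prop :=
  ∃ j, (mstep ins)^[j] (p, R) = (Fin.last L, fun _ => 0)

theorem nxt_step (p : Fin (L + 1)) (x : Fin (N + 3) → G N L Empty) :
    mstep ins (p, fun i => val (x i)) =
      ((nxt ins p x).1, fun i => val ((nxt ins p x).2 i)) := by
  unfold mstep nxt
  cases hp : ins p with
  | inc r q =>
    simp only [hp]
    congr 1
    funext i
    by_cases h : i = r
    · subst h; simp [val]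
    · simp [Function.update_of_ne h]
  | dec r q q' =>
    simp only [hp]
    cases hx : x r with
    | s y =>
      simp only [val, Nat.add_eq_zero_iff, one_ne_zero, and_false, if_false]
      congr 1
      funext i
      by_cases h : i = r
      · subst h; simp
      · simp [Function.update_of_ne h]
    | var y => exact y.elim
    | _ => simp [val]
  | jmp q => simp only [hp]

theorem acc_cell (T : G N L Empty) : ∀ (p : Fin (L + 1)) (x : Fin (N + 3) → G N L Empty),
    ¬ Err ins (.cell p x T) → Acc ins p (fun i => val (x i)) := by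
  induction T with
  | cell q w U ihw ihU =>
    intro p x h
    have hok : ok (.cell p x (.cell q w U) : G N L Empty) := ⟨fun i => not_isv _, not_isv _⟩
    have h1 : ∀ i, val (chk ins (.cell p x (.cell q w U)) i).1 =
        val (chk ins (.cell p x (.cell q w U)) i).2 := by
      intro i
      by_contra hi
      exact h (err_of_ne ins i hok hi)
    simp only [chk] at h1
    by_cases hq : q = (nxt ins p x).1
    · simp only [if_pos hq] at h1
      have h2 : Acc ins q (fun i => val (w i)) := ihU q w (fun h3 => h (err_cell ins p x h3))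
      obtain ⟨j, hj⟩ := h2
      refine ⟨j + 1, ?_⟩
      rw [Function.iterate_succ_apply, nxt_step, ← hq]
      rw [show (fun i => val ((nxt ins p x).2 i)) = fun i => val (w i) from
        funext fun i => (h1 i).symm]
      exact hj
    · simp only [if_neg hq] at h1
      have := h1 0
      simp [val] at this
  | var x => exact x.elim
  | _ =>
    intro p x h
    have h1 := fun i => not_imp_comm.1 (err_of_ne ins (t := .cell p x _) i
      ⟨fun i => not_isv _, not_isv _⟩) h
    simp only [chk] at h1
    by_cases hp : p = Fin.last L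
    · simp only [if_pos hp] at h1
      subst hp
      refine ⟨0, ?_⟩
      simp only [Function.iterate_zero, id_eq]
      congr 1
      funext i
      rw [h1 i]
      rfl
    · simp only [if_neg hp] at h1
      have := h1 0
      simp [val] at this

theorem acc_ini (a T : G N L Empty) (h : ¬ Err ins (.ini a T)) :
    ∃ k, Acc ins 0 (st0 (N + 3) (val a) k) := by
  have hok : ok (.ini a T : G N L Empty) := ⟨not_isv _, not_isv _⟩
  have h1 : ∀ i, val (chk ins (.ini a T) i).1 = val (chk ins (.ini a T) i).2 := by
    intro i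
    by_contra hi
    exact h (err_of_ne ins i hok hi)
  cases T with
  | cell q w U =>
    simp only [chk] at h1
    by_cases hq : q = 0
    · simp only [if_pos hq] at h1
      subst hq
      refine ⟨val (w 1), ?_⟩
      have h2 := acc_cell ins U 0 w (fun h3 => h (err_ini ins a h3))
      have h3 : st0 (N + 3) (val a) (val (w 1)) = fun i => val (w i) := by
        funext i
        have h4 := h1 i
        unfold st0
        by_cases hi0 : i = 0
        · subst hi0
          simp only [if_true] at h4
          simp [h4]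
        · by_cases hi1 : i = 1
          · subst hi1
            simp
          · simp only [if_neg hi0, if_neg hi1] at h4
            have e0 : (i : ℕ) ≠ 0 := fun h5 => hi0 (Fin.ext h5)
            have e1 : (i : ℕ) ≠ 1 := fun h5 => hi1 (Fin.ext (by simpa using h5))
            rw [if_neg e0, if_neg e1, h4]
            rfl
      rw [h3]
      exact h2
    · simp only [if_neg hq] at h1
      have := h1 0
      simp [val] at this
  | var x => exact x.elim
  | _ =>
    simp only [chk] at h1
    have := h1 0
    simp [val] at this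

/-- the two peeling symbols -/
def ph (b : Bool) (x : G N L Empty) : G N L Empty := if b then .Q 0 x else .P 0 x

theorem nons_of_val {x : G N L Empty} (h : val x = 0) : nons x := by
  cases x with
  | var y => exact y.elim
  | s y => simp [val] at h
  | _ => simp [nons]

theorem psi_complete (j : ℕ) : ∀ (b : Bool) (x : G N L Empty), ¬ Psi ins j b (ph b x) →
    val x = j := by
  induction j with
  | zero =>
    intro b x h
    by_contra hx
    apply h
    cases x with
    | s x =>
      cases b with
      | false =>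
        refine ⟨.Q 0 x, .root (.peelP x), ?_⟩
        simp [cnt, wt, col]
      | true =>
        refine ⟨.P 0 x, .root (.peelQ x), ?_⟩
        simp [cnt, wt, col]
    | _ => simp [val] at hx
  | succ j ih =>
    intro b x h
    by_cases hx : val x = 0
    · exfalso
      apply h
      left
      refine ⟨.K 0 0 .z, ?_, by simp [cnt, wt, col]⟩
      cases b with
      | false => exact .root (.topP x (nons_of_val hx))
      | true => exact .root (.topQ x (nons_of_val hx))
    · cases x with
      | s x =>
        simp only [val]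
        congr 1
        apply ih (!b)
        intro h1
        apply h
        right
        cases b with
        | false => exact ⟨.Q 0 x, .root (.peelP x), by simp [cnt, wt, col], h1⟩
        | true => exact ⟨.P 0 x, .root (.peelQ x), by simp [cnt, wt, col], h1⟩
      | _ => simp [val] at hx

theorem mis_complete (n : ℕ) (a T : G N L Empty) (h : ¬ Mis ins n (.ini a T)) : val a = n := by
  apply psi_complete ins n false
  intro h1
  exact h ⟨.P 0 a, .root (.iniP a T), by simp [cnt, wt, col], h1⟩

theorem body_of_not_acc (n : ℕ) (h : ¬ ∃ k, Acc ins 0 (st0 (N + 3) n k)) : Body ins n := by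
  refine ⟨.k0 0, .k0 1, .k0 2, .k0 3, .k0 4, .k0 5, .k0 6, .tau,
    ⟨.root (.k0cyc 0), .root (.k0cyc 1), .root (.k0cyc 2), .root (.k0cyc 3), .root (.k0cyc 4),
      .root (.k0cyc 5), .root (.k0cyc 6)⟩, ?_⟩
  intro y
  cases y with
  | var x => exact x.elim
  | k0 v =>
    left
    fin_cases v <;> simp
  | tau => left; left; rfl
  | ini a T =>
    right; right
    by_contra h1
    rw [not_or] at h1
    have h2 := mis_complete ins n a T h1.1
    have h3 := acc_ini ins a T h1.2
    rw [h2] at h3
    exact h h3
  | _ => exact .inr (.inl (.root (.tau _ trivial)))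

end Pool.Agent.V11232.OSR
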