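import Mathlib
import Pool.Agent.V11232.OSR.Complete

/-!
If the machine accepts, the sentence is false.
-/

set_option autoImplicit false

namespace Pool.Agent.V11232.OSR

open Pool.Agent.Helper273.Machine

variable {N L : ℕ}
variable (ins : Fin (L + 1) → MI (N + 3) (Fin (L + 1)))

/-- number of symbols -/
abbrev sz (t : G N L Empty) : ℕ := wt (fun _ => 1) t

/-- numerals -/
def Nu (x : G N L Empty) : Prop := ∃ m, x = pw m .z

/-- numerals, possibly cut -/
def Nv (x : G N L Empty) : Prop := ∃ m, x = pw m .z ∨ x = pw m (.ks 0)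

theorem nu_nv {x : G N L Empty} (h : Nu x) : Nv x := by
  obtain ⟨m, h⟩ := h
  exact ⟨m, .inl h⟩

theorem nu_z : Nu (.z : G N L Empty) := ⟨0, rfl⟩

theorem nu_s {x : G N L Empty} : Nu (.s x) ↔ Nu x := by
  constructor
  · rintro ⟨m, h⟩
    cases m with
    | zero => simp [pw] at h
    | succ m =>
      simp only [pw, G.s.injEq] at h
      exact ⟨m, h⟩
  · rintro ⟨m, rfl⟩
    exact ⟨m + 1, rfl⟩

theorem nu_cnt (c : Fin 5) {x : G N L Empty} (h : Nu x) : cnt c x = 0 := by
  obtain ⟨m, rfl⟩ := h
  rw [cnt_pw]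
  simp [cnt, wt, col]

theorem nv_cnt (c : Fin 5) (hc : c ≠ 1) {x : G N L Empty} (h : Nv x) : cnt c x = 0 := by
  obtain ⟨m, rfl | rfl⟩ := h
  · rw [cnt_pw]
    simp [cnt, wt, col]
  · rw [cnt_pw]
    simp [cnt, wt, col, hc]

theorem sz_pos (t : G N L Empty) : 1 ≤ sz t := by
  cases t with
  | var x => exact x.elim
  | _ => simp only [sz, wt]; omega

theorem rt_s_inv {x y : G N L Empty} (h : Rt ins (.s x) y) : y = .ks 0 ∨ y = .tau := by
  cases h with
  | s_ks x => exact .inl rfl
  | cutg t j h => simp [cutv] at h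
  | tau t h => exact .inr rfl
  | chkA t i h => exact absurd h (by simp [ok])
  | chkE t i h => exact absurd h (by simp [ok])

theorem rt_z_inv {y : G N L Empty} (h : Rt ins .z y) : y = .k0 0 ∨ y = .tau := by
  cases h with
  | cutg t j h =>
    simp only [cutv, Option.some.injEq] at h
    exact .inl (by rw [h])
  | tau t h => exact .inr rfl
  | chkA t i h => exact absurd h (by simp [ok])
  | chkE t i h => exact absurd h (by simp [ok])

theorem rt_ks_inv {v : Fin 6} {y : G N L Empty} (h : Rt ins (.ks v) y) :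
    y = .tau ∨ y = .ks (v + 1) ∨ ∃ j, y = .k0 j := by
  cases h with
  | cutg t j h => exact .inr (.inr ⟨j, rfl⟩)
  | tau t h => exact .inl rfl
  | kscyc v => exact .inr (.inl rfl)
  | ks0 j => exact .inr (.inr ⟨j, rfl⟩)
  | chkA t i h => exact absurd h (by simp [ok])
  | chkE t i h => exact absurd h (by simp [ok])

theorem rt_cell_inv {p : Fin (L + 1)} {x : Fin (N + 3) → G N L Empty} {T y : G N L Empty}
    (h : Rt ins (.cell p x T) y) : y = .k0 0 ∨ y = .tau ∨
      ∃ i, y = .K i 0 (chk ins (.cell p x T) i).1 ∨ y = .K i 0 (chk ins (.cell p x T) i).2 := by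
  cases h with
  | cutg t j h =>
    simp only [cutv, Option.some.injEq] at h
    exact .inl (by rw [h])
  | tau t h => exact .inr (.inl rfl)
  | chkA t i h => exact .inr (.inr ⟨i, .inl rfl⟩)
  | chkE t i h => exact .inr (.inr ⟨i, .inr rfl⟩)

theorem rt_ini_inv {a T y : G N L Empty}
    (h : Rt ins (.ini a T) y) : y = .k0 1 ∨ y = .P 0 a ∨
      ∃ i, y = .K i 0 (chk ins (.ini a T) i).1 ∨ y = .K i 0 (chk ins (.ini a T) i).2 := by
  cases h with
  | cutg t j h =>
    simp only [cutv, Option.some.injEq] at h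
    exact .inl (by rw [h])
  | tau t h => exact absurd h (by simp [hasTau])
  | iniP a T => exact .inr (.inl rfl)
  | chkA t i h => exact .inr (.inr ⟨i, .inl rfl⟩)
  | chkE t i h => exact .inr (.inr ⟨i, .inr rfl⟩)

theorem rt_K_inv {i : Fin (N + 3)} {v : Fin 5} {x y : G N L Empty} (h : Rt ins (.K i v x) y) :
    y = .k0 0 ∨ y = .tau ∨ y = .K i (v + 1) x := by
  cases h with
  | cutg t j h =>
    simp only [cutv, Option.some.injEq] at h
    exact .inl (by rw [h])
  | tau t h => exact .inr (.inl rfl)
  | kcyc i v x => exact .inr (.inr rfl)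
  | chkA t i h => exact absurd h (by simp [ok])
  | chkE t i h => exact absurd h (by simp [ok])

theorem rt_P_inv {v : Fin 8} {x y : G N L Empty} (h : Rt ins (.P v x) y) :
    y = .k0 0 ∨ y = .tau ∨ y = .P (v + 1) x ∨ (∃ x', x = .s x' ∧ y = .Q 0 x') ∨
      (nons x ∧ y = .K 0 0 .z) := by
  cases h with
  | cutg t j h =>
    simp only [cutv, Option.some.injEq] at h
    exact .inl (by rw [h])
  | tau t h => exact .inr (.inl rfl)
  | pcyc v x => exact .inr (.inr (.inl rfl))
  | peelP x => exact .inr (.inr (.inr (.inl ⟨x, rfl, rfl⟩)))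
  | topP x h => exact .inr (.inr (.inr (.inr ⟨h, rfl⟩)))
  | chkA t i h => exact absurd h (by simp [ok])
  | chkE t i h => exact absurd h (by simp [ok])

theorem rt_Q_inv {v : Fin 9} {x y : G N L Empty} (h : Rt ins (.Q v x) y) :
    y = .k0 0 ∨ y = .tau ∨ y = .Q (v + 1) x ∨ (∃ x', x = .s x' ∧ y = .P 0 x') ∨
      (nons x ∧ y = .K 0 0 .z) := by
  cases h with
  | cutg t j h =>
    simp only [cutv, Option.some.injEq] at h
    exact .inl (by rw [h])
  | tau t h => exact .inr (.inl rfl)
  | qcyc v x => exact .inr (.inr (.inl rfl))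
  | peelQ x => exact .inr (.inr (.inr (.inl ⟨x, rfl, rfl⟩)))
  | topQ x h => exact .inr (.inr (.inr (.inr ⟨h, rfl⟩)))
  | chkA t i h => exact absurd h (by simp [ok])
  | chkE t i h => exact absurd h (by simp [ok])

theorem nu_step (m : ℕ) : ∀ y : G N L Empty, Stp ins (pw m .z) y →
    cnt 0 y = 0 ∧ cnt 3 y = 0 ∧ cnt 4 y = 0 ∧
      (0 < cnt 1 y → Nv y ∧ sz y < sz (pw m .z : G N L Empty)) := by
  induction m with
  | zero =>
    intro y h
    simp only [pw] at h
    cases h with
    | root h =>
      rcases rt_z_inv ins h with rfl | rfl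
      · simp [cnt, wt, col]
      · simp [cnt, wt, col]
  | succ m ih =>
    intro y h
    simp only [pw] at h
    cases h with
    | root h =>
      rcases rt_s_inv ins h with rfl | rfl
      · refine ⟨by simp [cnt, wt, col], by simp [cnt, wt, col], by simp [cnt, wt, col],
          fun _ => ⟨⟨0, .inr rfl⟩, ?_⟩⟩
        have := sz_pos (pw m .z : G N L Empty)
        simp only [sz, pw, wt] at *
        omega
      · simp [cnt, wt, col]
    | @s _ y h =>
      obtain ⟨h1, h2, h3, h4⟩ := ih y h
      refine ⟨by simpa [cnt, wt, col] using h1, by simpa [cnt, wt, col] using h2,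
        by simpa [cnt, wt, col] using h3, fun h5 => ?_⟩
      obtain ⟨⟨b, h6⟩, h7⟩ := h4 (by simpa [cnt, wt, col] using h5)
      refine ⟨⟨b + 1, ?_⟩, ?_⟩
      · rcases h6 with rfl | rfl
        · exact .inl rfl
        · exact .inr rfl
      · simp only [sz, pw, wt] at *
        omega

theorem nu_step' {x y : G N L Empty} (hx : Nu x) (h : Stp ins x y) :
    cnt 0 y = 0 ∧ cnt 3 y = 0 ∧ cnt 4 y = 0 ∧ (0 < cnt 1 y → Nv y ∧ sz y < sz x) := by
  obtain ⟨m, rfl⟩ := hx
  exact nu_step ins m y h

theorem nv_step (m : ℕ) : ∀ x y : G N L Empty, (x = pw m .z ∨ x = pw m (.ks 0)) →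
    Stp ins x y → cnt 0 y = 0 ∧ (0 < cnt 2 y → sz y = sz x) := by
  induction m with
  | zero =>
    intro x y hm h
    rcases hm with rfl | rfl
    · simp only [pw] at h
      cases h with
      | root h =>
        rcases rt_z_inv ins h with rfl | rfl
        · simp [cnt, wt, col, sz, pw]
        · simp [cnt, wt, col]
    · simp only [pw] at h
      cases h with
      | root h =>
        rcases rt_ks_inv ins h with rfl | rfl | ⟨j, rfl⟩
        · simp [cnt, wt, col]
        · simp [cnt, wt, col]
        · simp [cnt, wt, col, sz, pw]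
  | succ m ih =>
    intro x y hm h
    have key : ∀ x' y : G N L Empty, (x' = pw m .z ∨ x' = pw m (.ks 0)) → Stp ins (.s x') y →
        cnt 0 y = 0 ∧ (0 < cnt 2 y → sz y = sz (.s x')) := by
      intro x' y hx' h
      cases h with
      | root h =>
        rcases rt_s_inv ins h with rfl | rfl
        · simp [cnt, wt, col]
        · simp [cnt, wt, col]
      | @s _ y h =>
        obtain ⟨h1, h2⟩ := ih x' y hx' h
        refine ⟨by simpa [cnt, wt, col] using h1, fun h3 => ?_⟩
        have := h2 (by simpa [cnt, wt, col] using h3)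
        simp only [sz, wt] at *
        omega
    rcases hm with rfl | rfl
    · exact key _ _ (.inl rfl) h
    · exact key _ _ (.inr rfl) h

theorem nv_step' {x y : G N L Empty} (hx : Nv x) (h : Stp ins x y) :
    cnt 0 y = 0 ∧ (0 < cnt 2 y → sz y = sz x) := by
  obtain ⟨m, hm⟩ := hx
  exact nv_step ins m x y hm h

theorem nv_z : Nv (.z : G N L Empty) := ⟨0, .inl rfl⟩

theorem nv_s {x : G N L Empty} : Nv (.s x) ↔ Nv x := by
  constructor
  · rintro ⟨m, h⟩
    cases m with
    | zero => simp [pw] at h
    | succ m =>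
      simp only [pw, G.s.injEq] at h
      exact ⟨m, h⟩
  · rintro ⟨m, rfl | rfl⟩
    · exact ⟨m + 1, .inl rfl⟩
    · exact ⟨m + 1, .inr rfl⟩

/-- history terms -/
inductive Sp0 : G N L Empty → Prop
  | z : Sp0 .z
  | cell (p : Fin (L + 1)) (x : Fin (N + 3) → G N L Empty) (T : G N L Empty)
      (h : ∀ i, Nu (x i)) (hT : Sp0 T) : Sp0 (.cell p x T)
  | ini (a T : G N L Empty) (h : Nu a) (hT : Sp0 T) : Sp0 (.ini a T)

/-- histories that end with a checking symbol -/
inductive Sp (A : G N L Empty → Prop) : G N L Empty → Prop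
  | K (i : Fin (N + 3)) (x : G N L Empty) (h : A x) : Sp A (.K i 0 x)
  | cell (p : Fin (L + 1)) (x : Fin (N + 3) → G N L Empty) (T : G N L Empty)
      (h : ∀ i, A (x i)) (hT : Sp A T) : Sp A (.cell p x T)
  | ini (a T : G N L Empty) (h : A a) (hT : Sp A T) : Sp A (.ini a T)

theorem Sp.mono {A B : G N L Empty → Prop} (hAB : ∀ x, A x → B x) {t : G N L Empty}
    (h : Sp A t) : Sp B t := by
  induction h with
  | K i x h => exact .K i x (hAB _ h)
  | cell p x T h hT ih => exact .cell p x T (fun i => hAB _ (h i)) ih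
  | ini a T h hT ih => exact .ini a T (hAB _ h) ih

/-- the checking steps -/
inductive KS : G N L Empty → G N L Empty → Prop
  | rootA (t : G N L Empty) (i : Fin (N + 3)) (h : ok t) : KS t (.K i 0 (chk ins t i).1)
  | rootE (t : G N L Empty) (i : Fin (N + 3)) (h : ok t) : KS t (.K i 0 (chk ins t i).2)
  | cell (p : Fin (L + 1)) (x : Fin (N + 3) → G N L Empty) (T Y : G N L Empty) (h : KS T Y) :
      KS (.cell p x T) (.cell p x Y)
  | ini (a T Y : G N L Empty) (h : KS T Y) : KS (.ini a T) (.ini a Y)

theorem nxt_cls (A : G N L Empty → Prop) (hs : ∀ x, A (.s x) ↔ A x) (p : Fin (L + 1))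
    (x : Fin (N + 3) → G N L Empty) (h : ∀ i, A (x i)) (i : Fin (N + 3)) :
    A ((nxt ins p x).2 i) := by
  unfold nxt
  cases hp : ins p with
  | inc r q =>
    simp only
    by_cases hi : i = r
    · subst hi
      rw [Function.update_self, hs]
      exact h i
    · rw [Function.update_of_ne hi]
      exact h i
  | dec r q q' =>
    simp only
    cases hx : x r with
    | s y =>
      simp only
      by_cases hi : i = r
      · subst hi
        rw [Function.update_self]
        have := h i
        rw [hx, hs] at this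
        exact this
      · rw [Function.update_of_ne hi]
        exact h i
    | _ => exact h i
  | jmp q => exact h i

theorem chk_cell_cls (A : G N L Empty → Prop) (hz : A .z) (hs : ∀ x, A (.s x) ↔ A x)
    (p : Fin (L + 1)) (x : Fin (N + 3) → G N L Empty) (T : G N L Empty) (h : ∀ i, A (x i))
    (hT : ∀ q w U, T = .cell q w U → ∀ i, A (w i)) (i : Fin (N + 3)) :
    A (chk ins (.cell p x T) i).1 ∧ A (chk ins (.cell p x T) i).2 := by
  have hsz : A (.s .z) := (hs _).2 hz
  cases T with
  | cell q w U =>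
    simp only [chk]
    split_ifs
    · exact ⟨hT q w U rfl i, nxt_cls ins A hs p x h i⟩
    · exact ⟨hz, hsz⟩
  | _ =>
    simp only [chk]
    split_ifs
    · exact ⟨h i, hz⟩
    · exact ⟨hz, hsz⟩

theorem chk_ini_cls (A : G N L Empty → Prop) (hz : A .z) (hs : ∀ x, A (.s x) ↔ A x)
    (a T : G N L Empty) (h : A a)
    (hT : ∀ q w U, T = .cell q w U → ∀ i, A (w i)) (i : Fin (N + 3)) :
    A (chk ins (.ini a T) i).1 ∧ A (chk ins (.ini a T) i).2 := by
  have hsz : A (.s .z) := (hs _).2 hz
  cases T with
  | cell q w U =>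
    simp only [chk]
    have := hT q w U rfl i
    split_ifs
    · exact ⟨this, h⟩
    · exact ⟨this, this⟩
    · exact ⟨this, hz⟩
    · exact ⟨hz, hsz⟩
  | _ => exact ⟨hz, hsz⟩

theorem sum_cnt_zero (c : Fin 5) (x : Fin (N + 3) → G N L Empty) (h : ∀ i, cnt c (x i) = 0) :
    ∑ i, wt (col c) (x i) = 0 := Finset.sum_eq_zero fun i _ => h i

theorem sp0_cnt (c : Fin 5) {t : G N L Empty} (h : Sp0 t) : cnt c t = 0 := by
  induction h with
  | z => simp [cnt, wt, col]
  | cell p x T h hT ih =>
    have := sum_cnt_zero c x (fun i => nu_cnt c (h i))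
    simp only [cnt, wt, col] at *
    omega
  | ini a T h hT ih =>
    have := nu_cnt c h
    simp only [cnt, wt, col] at *
    omega

theorem upd_cnt (c : Fin 5) (x : Fin (N + 3) → G N L Empty) (h : ∀ i, cnt c (x i) = 0)
    (i : Fin (N + 3)) (y : G N L Empty) : ∑ j, wt (col c) (Function.update x i y j) = cnt c y := by
  have h1 := sum_update (col c) x i y
  have h2 := sum_cnt_zero c x h
  have h3 := h i
  simp only [cnt] at *
  omega

theorem sp0_arg {T : G N L Empty} (h : Sp0 T) : ∀ q w U, T = .cell q w U → ∀ i, Nu (w i) := by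
  rintro q w U rfl
  cases h with
  | cell _ _ _ h _ => exact h

theorem sp_arg {A : G N L Empty → Prop} {T : G N L Empty} (h : Sp A T) :
    ∀ q w U, T = .cell q w U → ∀ i, A (w i) := by
  rintro q w U rfl
  cases h with
  | cell _ _ _ h _ => exact h

/-- the checking steps from history terms -/
theorem sp0_step {t : G N L Empty} (h : Sp0 t) : ∀ Y, Stp ins t Y → 0 < cnt 0 Y → KS ins t Y := by
  induction h with
  | z =>
    intro Y h hY
    cases h with
    | root h =>
      rcases rt_z_inv ins h with rfl | rfl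
      · simp [cnt, wt, col] at hY
      · simp [cnt, wt, col] at hY
  | cell p x T h hT ih =>
    intro Y hs hY
    cases hs with
    | root h1 =>
      rcases rt_cell_inv ins h1 with rfl | rfl | ⟨i, rfl | rfl⟩
      · simp [cnt, wt, col] at hY
      · simp [cnt, wt, col] at hY
      · exact .rootA _ i ⟨fun _ => not_isv _, not_isv _⟩
      · exact .rootE _ i ⟨fun _ => not_isv _, not_isv _⟩
    | cellx _ _ _ i y h1 =>
      exfalso
      have e1 := (nu_step' ins (h i) h1).1
      have e2 := upd_cnt 0 x (fun i => nu_cnt 0 (h i)) i y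
      have e3 := sp0_cnt 0 hT
      simp only [cnt, wt, col] at *
      omega
    | @cellT _ _ _ U h1 =>
      refine .cell p x T U (ih U h1 ?_)
      have e2 := sum_cnt_zero 0 x (fun i => nu_cnt 0 (h i))
      simp only [cnt, wt, col] at *
      omega
  | ini a T h hT ih =>
    intro Y hs hY
    cases hs with
    | root h1 =>
      rcases rt_ini_inv ins h1 with rfl | rfl | ⟨i, rfl | rfl⟩
      · simp [cnt, wt, col] at hY
      · have := nu_cnt 0 h
        simp [cnt, wt, col] at *
        omega
      · exact .rootA _ i ⟨not_isv _, not_isv _⟩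
      · exact .rootE _ i ⟨not_isv _, not_isv _⟩
    | @inia _ b _ h1 =>
      exfalso
      have e1 := (nu_step' ins h h1).1
      have e3 := sp0_cnt 0 hT
      simp only [cnt, wt, col] at *
      omega
    | @iniT _ _ U h1 =>
      refine .ini a T U (ih U h1 ?_)
      have e2 := nu_cnt 0 h
      simp only [cnt, wt, col] at *
      omega

theorem ks_sp {t Y : G N L Empty} (h : KS ins t Y) : Sp0 t → Sp Nu Y := by
  induction h with
  | rootA t i h =>
    intro ht
    refine .K i _ ?_
    cases ht with
    | z => exact absurd h (by simp [ok])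
    | cell p x T h1 h2 =>
      exact (chk_cell_cls ins Nu nu_z (fun _ => nu_s) p x T h1 (sp0_arg h2) i).1
    | ini a T h1 h2 =>
      exact (chk_ini_cls ins Nu nu_z (fun _ => nu_s) a T h1 (sp0_arg h2) i).1
  | rootE t i h =>
    intro ht
    refine .K i _ ?_
    cases ht with
    | z => exact absurd h (by simp [ok])
    | cell p x T h1 h2 =>
      exact (chk_cell_cls ins Nu nu_z (fun _ => nu_s) p x T h1 (sp0_arg h2) i).2
    | ini a T h1 h2 =>
      exact (chk_ini_cls ins Nu nu_z (fun _ => nu_s) a T h1 (sp0_arg h2) i).2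
  | cell p x T Y h ih =>
    intro ht
    cases ht with
    | cell _ _ _ h1 h2 => exact .cell p x Y h1 (ih h2)
  | ini a T Y h ih =>
    intro ht
    cases ht with
    | ini _ _ h1 h2 => exact .ini a Y h1 (ih h2)

/-- the place of the checking symbol -/
def kloc : G N L Empty → ℕ × ℕ
  | .K i _ _ => (0, i.val)
  | .cell _ _ T => ((kloc T).1 + 1, (kloc T).2)
  | .ini _ T => ((kloc T).1 + 1, (kloc T).2)
  | _ => (0, 0)

theorem sp_cnt (c : Fin 5) (hc : c ≠ 0) {A : G N L Empty → Prop}
    (hA : ∀ x, A x → cnt c x = 0) {Y : G N L Empty} (h : Sp A Y) : cnt c Y = 0 := by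
  induction h with
  | K i x h =>
    have := hA x h
    simp only [cnt, wt, col, if_neg hc] at *
    omega
  | cell p x T h hT ih =>
    have := sum_cnt_zero c x (fun i => hA _ (h i))
    simp only [cnt, wt, col] at *
    omega
  | ini a T h hT ih =>
    have := hA a h
    simp only [cnt, wt, col] at *
    omega

theorem sp_cut {Y : G N L Empty} (h : Sp Nu Y) : ∀ Z, Stp ins Y Z → 0 < cnt 1 Z →
    Sp Nv Z ∧ kloc Z = kloc Y ∧ sz Z < sz Y := by
  induction h with
  | K i x h =>
    intro Z hs hZ
    have e0 := nu_cnt 1 h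
    cases hs with
    | root h1 =>
      exfalso
      rcases rt_K_inv ins h1 with rfl | rfl | rfl
      · simp [cnt, wt, col] at hZ
      · simp [cnt, wt, col] at hZ
      · simp [cnt, wt, col] at *
        omega
    | @K _ _ _ y h1 =>
      obtain ⟨e1, e2⟩ := (nu_step' ins h h1).2.2.2 (by simpa [cnt, wt, col] using hZ)
      refine ⟨.K i y e1, rfl, ?_⟩
      simp only [sz, wt] at *
      omega
  | cell p x T h hT ih =>
    intro Z hs hZ
    have e0 := sp_cnt 1 (by decide) (fun x h => nu_cnt 1 h) hT
    have e4 := sum_cnt_zero 1 x (fun i => nu_cnt 1 (h i))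
    cases hs with
    | root h1 =>
      exfalso
      rcases rt_cell_inv ins h1 with rfl | rfl | ⟨i, rfl | rfl⟩
      · simp [cnt, wt, col] at hZ
      · simp [cnt, wt, col] at hZ
      · have := nu_cnt 1 (chk_cell_cls ins Nu nu_z (fun _ => nu_s) p x T h (sp_arg hT) i).1
        simp [cnt, wt, col] at *
        omega
      · have := nu_cnt 1 (chk_cell_cls ins Nu nu_z (fun _ => nu_s) p x T h (sp_arg hT) i).2
        simp [cnt, wt, col] at *
        omega
    | cellx _ _ _ i y h1 =>
      have e2 := upd_cnt 1 x (fun i => nu_cnt 1 (h i)) i y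
      obtain ⟨e1, e3⟩ := (nu_step' ins (h i) h1).2.2.2 (by
        simp only [cnt, wt, col] at *
        omega)
      refine ⟨.cell p _ T ?_ (hT.mono fun _ => nu_nv), rfl, ?_⟩
      · intro j
        by_cases hj : j = i
        · subst hj; simpa using e1
        · rw [Function.update_of_ne hj]; exact nu_nv (h j)
      · have := sum_update (fun _ => 1) x i y
        simp only [sz, wt] at *
        omega
    | @cellT _ _ _ U h1 =>
      obtain ⟨e1, e2, e3⟩ := ih U h1 (by
        simp only [cnt, wt, col] at *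
        omega)
      refine ⟨.cell p x U (fun i => nu_nv (h i)) e1, by simp only [kloc, e2], ?_⟩
      simp only [sz, wt] at *
      omega
  | ini a T h hT ih =>
    intro Z hs hZ
    have e0 := sp_cnt 1 (by decide) (fun x h => nu_cnt 1 h) hT
    have e4 := nu_cnt 1 h
    cases hs with
    | root h1 =>
      exfalso
      rcases rt_ini_inv ins h1 with rfl | rfl | ⟨i, rfl | rfl⟩
      · simp [cnt, wt, col] at hZ
      · simp [cnt, wt, col] at *
        omega
      · have := nu_cnt 1 (chk_ini_cls ins Nu nu_z (fun _ => nu_s) a T h (sp_arg hT) i).1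
        simp [cnt, wt, col] at *
        omega
      · have := nu_cnt 1 (chk_ini_cls ins Nu nu_z (fun _ => nu_s) a T h (sp_arg hT) i).2
        simp [cnt, wt, col] at *
        omega
    | @inia _ b _ h1 =>
      obtain ⟨e1, e3⟩ := (nu_step' ins h h1).2.2.2 (by
        simp only [cnt, wt, col] at *
        omega)
      refine ⟨.ini b T e1 (hT.mono fun _ => nu_nv), rfl, ?_⟩
      simp only [sz, wt] at *
      omega
    | @iniT _ _ U h1 =>
      obtain ⟨e1, e2, e3⟩ := ih U h1 (by
        simp only [cnt, wt, col] at *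
        omega)
      refine ⟨.ini a U (nu_nv h) e1, by simp only [kloc, e2], ?_⟩
      simp only [sz, wt] at *
      omega

theorem sp_zero {Y : G N L Empty} (h : Sp Nv Y) : ∀ Z, Stp ins Y Z → 0 < cnt 2 Z →
    0 < cnt 0 Z → kloc Z = kloc Y ∧ sz Z = sz Y := by
  have n2 : (2 : Fin 5) ≠ 1 := by decide
  have n0 : (0 : Fin 5) ≠ 1 := by decide
  induction h with
  | K i x h =>
    intro Z hs hZ hZ0
    have e0 := nv_cnt 2 n2 h
    cases hs with
    | root h1 =>
      exfalso
      rcases rt_K_inv ins h1 with rfl | rfl | rfl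
      · simp [cnt, wt, col] at hZ0
      · simp [cnt, wt, col] at hZ
      · simp [cnt, wt, col] at *
        omega
    | @K _ _ _ y h1 =>
      have e2 := (nv_step' ins h h1).2 (by simpa [cnt, wt, col] using hZ)
      refine ⟨rfl, ?_⟩
      simp only [sz, wt] at *
      omega
  | cell p x T h hT ih =>
    intro Z hs hZ hZ0
    have e0 := sp_cnt 2 (by decide) (fun x h => nv_cnt 2 n2 h) hT
    have e4 := sum_cnt_zero 2 x (fun i => nv_cnt 2 n2 (h i))
    have e5 := sum_cnt_zero 0 x (fun i => nv_cnt 0 n0 (h i))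
    cases hs with
    | root h1 =>
      exfalso
      rcases rt_cell_inv ins h1 with rfl | rfl | ⟨i, rfl | rfl⟩
      · simp [cnt, wt, col] at hZ0
      · simp [cnt, wt, col] at hZ
      · have := nv_cnt 2 n2 (chk_cell_cls ins Nv nv_z (fun _ => nv_s) p x T h (sp_arg hT) i).1
        simp [cnt, wt, col] at *
        omega
      · have := nv_cnt 2 n2 (chk_cell_cls ins Nv nv_z (fun _ => nv_s) p x T h (sp_arg hT) i).2
        simp [cnt, wt, col] at *
        omega
    | cellx _ _ _ i y h1 =>
      have e2 := upd_cnt 2 x (fun i => nv_cnt 2 n2 (h i)) i y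
      have e3 := (nv_step' ins (h i) h1).2 (by
        simp only [cnt, wt, col] at *
        omega)
      refine ⟨rfl, ?_⟩
      have := sum_update (fun _ => 1) x i y
      simp only [sz, wt] at *
      omega
    | @cellT _ _ _ U h1 =>
      obtain ⟨e2, e3⟩ := ih U h1 (by
        simp only [cnt, wt, col] at *
        omega) (by
        simp only [cnt, wt, col] at *
        omega)
      refine ⟨by simp only [kloc, e2], ?_⟩
      simp only [sz, wt] at *
      omega
  | ini a T h hT ih =>
    intro Z hs hZ hZ0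
    have e0 := sp_cnt 2 (by decide) (fun x h => nv_cnt 2 n2 h) hT
    have e4 := nv_cnt 2 n2 h
    have e5 := nv_cnt 0 n0 h
    cases hs with
    | root h1 =>
      exfalso
      rcases rt_ini_inv ins h1 with rfl | rfl | ⟨i, rfl | rfl⟩
      · simp [cnt, wt, col] at hZ0
      · simp [cnt, wt, col] at *
        omega
      · have := nv_cnt 2 n2 (chk_ini_cls ins Nv nv_z (fun _ => nv_s) a T h (sp_arg hT) i).1
        simp [cnt, wt, col] at *
        omega
      · have := nv_cnt 2 n2 (chk_ini_cls ins Nv nv_z (fun _ => nv_s) a T h (sp_arg hT) i).2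
        simp [cnt, wt, col] at *
        omega
    | @inia _ b _ h1 =>
      have e3 := (nv_step' ins h h1).2 (by
        simp only [cnt, wt, col] at *
        omega)
      refine ⟨rfl, ?_⟩
      simp only [sz, wt] at *
      omega
    | @iniT _ _ U h1 =>
      obtain ⟨e2, e3⟩ := ih U h1 (by
        simp only [cnt, wt, col] at *
        omega) (by
        simp only [cnt, wt, col] at *
        omega)
      refine ⟨by simp only [kloc, e2], ?_⟩
      simp only [sz, wt] at *
      omega

/-- correct histories -/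
inductive Gd : G N L Empty → Prop
  | z : Gd .z
  | cell (p : Fin (L + 1)) (x : Fin (N + 3) → G N L Empty) (T : G N L Empty)
      (h : ∀ i, (chk ins (.cell p x T) i).1 = (chk ins (.cell p x T) i).2) (hT : Gd T) :
      Gd (.cell p x T)
  | ini (a T : G N L Empty)
      (h : ∀ i, (chk ins (.ini a T) i).1 = (chk ins (.ini a T) i).2) (hT : Gd T) : Gd (.ini a T)

theorem ks_det {t Y : G N L Empty} (hY : KS ins t Y) : Gd ins t → ∀ Y', KS ins t Y' →
    kloc Y = kloc Y' → Y = Y' := by
  have key : ∀ (t : G N L Empty), Gd ins t → ok t → ∀ i,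
      (chk ins t i).1 = (chk ins t i).2 := by
    intro t ht hok
    cases ht with
    | z => exact absurd hok (by simp [ok])
    | cell p x T h hT => exact h
    | ini a T h hT => exact h
  induction hY with
  | rootA t i h =>
    intro hG Y' hY' hk
    cases hY' with
    | rootA _ i' h' =>
      simp only [kloc, Prod.mk.injEq, true_and] at hk
      rw [Fin.ext hk]
    | rootE _ i' h' =>
      simp only [kloc, Prod.mk.injEq, true_and] at hk
      rw [Fin.ext hk, key t hG h]
    | cell p x T Y h' => simp [kloc] at hk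
    | ini a T Y h' => simp [kloc] at hk
  | rootE t i h =>
    intro hG Y' hY' hk
    cases hY' with
    | rootA _ i' h' =>
      simp only [kloc, Prod.mk.injEq, true_and] at hk
      rw [Fin.ext hk, key t hG h]
    | rootE _ i' h' =>
      simp only [kloc, Prod.mk.injEq, true_and] at hk
      rw [Fin.ext hk]
    | cell p x T Y h' => simp [kloc] at hk
    | ini a T Y h' => simp [kloc] at hk
  | cell p x T Y h ih =>
    intro hG Y' hY' hk
    cases hY' with
    | rootA _ i' h' => simp [kloc] at hk
    | rootE _ i' h' => simp [kloc] at hk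
    | cell _ _ _ Y2 h' =>
      cases hG with
      | cell _ _ _ _ hT =>
        rw [ih hT Y2 h' (by
          simp only [kloc, Prod.mk.injEq, Nat.add_right_cancel_iff] at hk
          exact Prod.ext hk.1 hk.2)]
  | ini a T Y h ih =>
    intro hG Y' hY' hk
    cases hY' with
    | rootA _ i' h' => simp [kloc] at hk
    | rootE _ i' h' => simp [kloc] at hk
    | ini _ _ Y2 h' =>
      cases hG with
      | ini _ _ _ hT =>
        rw [ih hT Y2 h' (by
          simp only [kloc, Prod.mk.injEq, Nat.add_right_cancel_iff] at hk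
          exact Prod.ext hk.1 hk.2)]

theorem not_err {t : G N L Empty} (h0 : Sp0 t) (hG : Gd ins t) : ¬ Err ins t := by
  rintro ⟨Y1, Y2, Z1, Z2, h1, h2, h3, h4, h5, h6, h7, h8, h9, h10⟩
  have k1 := sp0_step ins h0 Y1 h1 h2
  have k2 := sp0_step ins h0 Y2 h3 h4
  have s1 := ks_sp ins k1 h0
  have s2 := ks_sp ins k2 h0
  obtain ⟨c1, c2, c3⟩ := sp_cut ins s1 Z1 h5 h6
  obtain ⟨d1, d2⟩ := sp_zero ins (s2.mono fun _ => nu_nv) Z2 h7 h8 h9
  obtain ⟨e1, e2⟩ := sp_zero ins c1 Z2 h10 h8 h9
  have := ks_det ins k1 hG Y2 k2 (by rw [← c2, ← e1, d1])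
  subst this
  omega

end Pool.Agent.V11232.OSR
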