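import Mathlib
import Pool.Agent.V11232.OSR.Sound

/-!
The sentence is true if and only if the machine does not accept; the formula and its code.
-/

set_option autoImplicit false

namespace Pool.Agent.V11232.OSR

open Pool.Agent.Helper273.Machine

variable {N L : ℕ}
variable (ins : Fin (L + 1) → MI (N + 3) (Fin (L + 1)))

/-- histories -/
inductive Hs : G N L Empty → Prop
  | z : Hs .z
  | cell (p : Fin (L + 1)) (x : Fin (N + 3) → G N L Empty) (T : G N L Empty)
      (h : ∀ i, Nu (x i)) (hT : Hs T) : Hs (.cell p x T)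

theorem hs_sp0 {t : G N L Empty} (h : Hs t) : Sp0 t := by
  induction h with
  | z => exact .z
  | cell p x T h hT ih => exact .cell p x T h ih

theorem hs_step (c : Fin 5) (hc : c = 3 ∨ c = 4) {t : G N L Empty} (h : Hs t) :
    ∀ Y, Stp ins t Y → cnt c Y = 0 := by
  have c0 : c ≠ 0 := by rcases hc with rfl | rfl <;> decide
  have c2 : c ≠ 2 := by rcases hc with rfl | rfl <;> decide
  induction h with
  | z =>
    intro Y h
    cases h with
    | root h =>
      rcases rt_z_inv ins h with rfl | rfl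
      · simp [cnt, wt, col, c2]
      · simp [cnt, wt, col]
  | cell p x T h hT ih =>
    intro Y hs
    cases hs with
    | root h1 =>
      rcases rt_cell_inv ins h1 with rfl | rfl | ⟨i, rfl | rfl⟩
      · simp [cnt, wt, col, c2]
      · simp [cnt, wt, col]
      · have := nu_cnt c (chk_cell_cls ins Nu nu_z (fun _ => nu_s) p x T h
          (sp0_arg (hs_sp0 hT)) i).1
        simp only [cnt, wt, col, if_neg c0] at *
        omega
      · have := nu_cnt c (chk_cell_cls ins Nu nu_z (fun _ => nu_s) p x T h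
          (sp0_arg (hs_sp0 hT)) i).2
        simp only [cnt, wt, col, if_neg c0] at *
        omega
    | cellx _ _ _ i y h1 =>
      have e1 : cnt c y = 0 := by
        rcases hc with rfl | rfl
        · exact (nu_step' ins (h i) h1).2.1
        · exact (nu_step' ins (h i) h1).2.2.1
      have e2 := upd_cnt c x (fun i => nu_cnt c (h i)) i y
      have e3 := sp0_cnt c (hs_sp0 hT)
      simp only [cnt, wt, col] at *
      omega
    | @cellT _ _ _ U h1 =>
      have e1 := ih U h1
      have e2 := sum_cnt_zero c x (fun i => nu_cnt c (h i))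
      simp only [cnt, wt, col] at *
      omega

theorem pw_eq_s {m : ℕ} {x : G N L Empty} (h : pw m .z = .s x) : ∃ m', m = m' + 1 ∧ x = pw m' .z := by
  cases m with
  | zero => simp [pw] at h
  | succ m =>
    simp only [pw, G.s.injEq] at h
    exact ⟨m, rfl, h.symm⟩

theorem pw_nons {m : ℕ} (h : nons (pw m (.z : G N L Empty))) : m = 0 := by
  cases m with
  | zero => rfl
  | succ m => exact absurd h (by simp [pw, nons])

theorem ph_step (m : ℕ) (b : Bool) (Y : G N L Empty) (h : Stp ins (ph b (pw m .z)) Y) :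
    (0 < cnt (if b then 3 else 4) Y → ∃ m', m = m' + 1 ∧ Y = ph (!b) (pw m' .z)) ∧
    (0 < cnt 0 Y → m = 0) := by
  have n0 := nu_cnt 0 (N := N) (L := L) ⟨m, rfl⟩
  have n3 := nu_cnt 3 (N := N) (L := L) ⟨m, rfl⟩
  have n4 := nu_cnt 4 (N := N) (L := L) ⟨m, rfl⟩
  cases b with
  | false =>
    simp only [ph, Bool.false_eq_true, if_false] at h ⊢
    cases h with
    | root h =>
      rcases rt_P_inv ins h with rfl | rfl | rfl | ⟨x', hx, rfl⟩ | ⟨hx, rfl⟩
      · simp [cnt, wt, col]
      · simp [cnt, wt, col]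
      · constructor
        · intro h; simp [cnt, wt, col] at h n4; omega
        · intro h; simp [cnt, wt, col] at h n0; omega
      · obtain ⟨m', rfl, rfl⟩ := pw_eq_s hx
        refine ⟨fun _ => ⟨m', rfl, by simp⟩, fun h => ?_⟩
        have := nu_cnt 0 (N := N) (L := L) ⟨m', rfl⟩
        simp [cnt, wt, col] at h this
        omega
      · refine ⟨fun h => ?_, fun _ => pw_nons hx⟩
        simp [cnt, wt, col] at h
    | @P _ _ y h =>
      obtain ⟨e0, e3, e4, _⟩ := nu_step ins m y h
      constructor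
      · intro h; simp [cnt, wt, col] at h e4; omega
      · intro h; simp [cnt, wt, col] at h e0; omega
  | true =>
    simp only [ph, if_true] at h ⊢
    cases h with
    | root h =>
      rcases rt_Q_inv ins h with rfl | rfl | rfl | ⟨x', hx, rfl⟩ | ⟨hx, rfl⟩
      · simp [cnt, wt, col]
      · simp [cnt, wt, col]
      · constructor
        · intro h; simp [cnt, wt, col] at h n3; omega
        · intro h; simp [cnt, wt, col] at h n0; omega
      · obtain ⟨m', rfl, rfl⟩ := pw_eq_s hx
        refine ⟨fun _ => ⟨m', rfl, by simp⟩, fun h => ?_⟩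
        have := nu_cnt 0 (N := N) (L := L) ⟨m', rfl⟩
        simp [cnt, wt, col] at h this
        omega
      · refine ⟨fun h => ?_, fun _ => pw_nons hx⟩
        simp [cnt, wt, col] at h
    | @Q _ _ y h =>
      obtain ⟨e0, e3, e4, _⟩ := nu_step ins m y h
      constructor
      · intro h; simp [cnt, wt, col] at h e3; omega
      · intro h; simp [cnt, wt, col] at h e0; omega

theorem psi_false (j : ℕ) : ∀ b, ¬ Psi ins j b (ph b (pw j .z)) := by
  induction j with
  | zero =>
    rintro b ⟨Y, h1, h2⟩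
    obtain ⟨m', h3, _⟩ := (ph_step ins 0 b Y h1).1 h2
    omega
  | succ j ih =>
    rintro b (⟨F, h1, h2⟩ | ⟨Y, h1, h2, h3⟩)
    · have := (ph_step ins _ b F h1).2 h2
      omega
    · obtain ⟨m', h4, rfl⟩ := (ph_step ins _ b Y h1).1 h2
      obtain rfl : j = m' := by omega
      exact ih _ h3

theorem mis_false (n : ℕ) {T : G N L Empty} (hT : Hs T) : ¬ Mis ins n (.ini (pw n .z) T) := by
  rintro ⟨Y, h1, h2, h3⟩
  have n3 := nu_cnt 3 (N := N) (L := L) ⟨n, rfl⟩
  have t3 := sp0_cnt 3 (hs_sp0 hT)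
  cases h1 with
  | root h1 =>
    rcases rt_ini_inv ins h1 with rfl | rfl | ⟨i, rfl | rfl⟩
    · simp [cnt, wt, col] at h2
    · exact psi_false ins n false h3
    · have := nu_cnt 3 (chk_ini_cls ins Nu nu_z (fun _ => nu_s) (pw n .z) T ⟨n, rfl⟩
          (sp0_arg (hs_sp0 hT)) i).1
      simp [cnt, wt, col] at h2 this
      omega
    · have := nu_cnt 3 (chk_ini_cls ins Nu nu_z (fun _ => nu_s) (pw n .z) T ⟨n, rfl⟩
          (sp0_arg (hs_sp0 hT)) i).2
      simp [cnt, wt, col] at h2 this
      omega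
  | @inia _ b _ h1 =>
    have := (nu_step ins n b h1).2.1
    simp only [cnt, wt, col] at *
    omega
  | @iniT _ _ U h1 =>
    have := hs_step ins 3 (.inl rfl) hT U h1
    simp only [cnt, wt, col] at *
    omega

theorem mis_z (n : ℕ) : ¬ Mis ins n (.z : G N L Empty) := by
  rintro ⟨Y, h1, h2, _⟩
  cases h1 with
  | root h =>
    rcases rt_z_inv ins h with rfl | rfl
    · simp [cnt, wt, col] at h2
    · simp [cnt, wt, col] at h2

theorem nxt_num (p : Fin (L + 1)) (R : Fin (N + 3) → ℕ) :
    nxt ins p (fun i => pw (R i) (.z : G N L Empty)) =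
      ((mstep ins (p, R)).1, fun i => pw ((mstep ins (p, R)).2 i) .z) := by
  unfold mstep nxt
  cases hp : ins p with
  | inc r q =>
    simp only
    congr 1
    funext i
    by_cases h : i = r
    · subst h; simp [pw]
    · simp [Function.update_of_ne h]
  | dec r q q' =>
    simp only
    cases hx : R r with
    | zero => simp [pw]
    | succ m =>
      simp only [pw, Nat.add_eq_zero_iff, one_ne_zero, and_false, if_false]
      congr 1
      funext i
      by_cases h : i = r
      · subst h; simp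
      · simp [Function.update_of_ne h]
  | jmp q => simp only

theorem hist (j : ℕ) : ∀ (p : Fin (L + 1)) (R : Fin (N + 3) → ℕ),
    (mstep ins)^[j] (p, R) = (Fin.last L, fun _ => 0) →
    ∃ T : G N L Empty, Hs T ∧ Gd ins (.cell p (fun i => pw (R i) .z) T) := by
  induction j with
  | zero =>
    intro p R h
    simp only [Function.iterate_zero, id_eq, Prod.mk.injEq] at h
    obtain ⟨rfl, rfl⟩ := h
    refine ⟨.z, .z, .cell _ _ _ (fun i => ?_) .z⟩
    simp [chk, pw]
  | succ j ih =>
    intro p R h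
    rw [Function.iterate_succ_apply] at h
    obtain ⟨T, hT, hG⟩ := ih (mstep ins (p, R)).1 (mstep ins (p, R)).2 h
    refine ⟨.cell (mstep ins (p, R)).1 (fun i => pw ((mstep ins (p, R)).2 i) .z) T,
      .cell _ _ _ (fun i => ⟨_, rfl⟩) hT, .cell _ _ _ (fun i => ?_) hG⟩
    simp only [chk, nxt_num, if_true]

theorem walk7 {T : Type} {r : T → T → Prop} {a b c d e f g : T} (h1 : r a b) (h2 : r b c)
    (h3 : r c d) (h4 : r d e) (h5 : r e f) (h6 : r f g) (h7 : r g a) : Walk r 7 a a :=
  ⟨b, h1, c, h2, d, h3, e, h4, f, h5, g, h6, a, h7, rfl⟩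

theorem not_body (n : ℕ) (h : ∃ k, Acc ins 0 (st0 (N + 3) n k)) : ¬ Body ins n := by
  rintro ⟨v0, v1, v2, v3, v4, v5, v6, u, ⟨h0, h1, h2, h3, h4, h5, h6⟩, hy⟩
  obtain ⟨k, j, hj⟩ := h
  obtain ⟨T, hT, hG⟩ := hist ins j 0 _ hj
  set H : G N L Empty := .cell 0 (fun i => pw (st0 (N + 3) n k i) .z) T with hH
  have c0 := (walk_iff ins 2 v0).1 (walk7 h0 h1 h2 h3 h4 h5 h6)
  have c1 := (walk_iff ins 2 v1).1 (walk7 h1 h2 h3 h4 h5 h6 h0)
  have c2 := (walk_iff ins 2 v2).1 (walk7 h2 h3 h4 h5 h6 h0 h1)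
  have c3 := (walk_iff ins 2 v3).1 (walk7 h3 h4 h5 h6 h0 h1 h2)
  have c4 := (walk_iff ins 2 v4).1 (walk7 h4 h5 h6 h0 h1 h2 h3)
  have c5 := (walk_iff ins 2 v5).1 (walk7 h5 h6 h0 h1 h2 h3 h4)
  have c6 := (walk_iff ins 2 v6).1 (walk7 h6 h0 h1 h2 h3 h4 h5)
  have key : ∀ y : G N L Empty, cnt 2 y = 0 → ¬ Mis ins n y → ¬ Err ins y →
      y = u ∨ Stp ins y u := by
    intro y hy2 hm he
    rcases hy y with h | h | h | h
    · rcases h with h | h | h | h | h | h | h | h
      · exact .inl h
      all_goals subst h; omega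
    · exact .inr h
    · exact absurd h hm
    · exact absurd h he
  have hHs : Hs H := .cell _ _ _ (fun i => ⟨_, rfl⟩) hT
  have hchk : ∀ i, (chk ins (.ini (pw n .z) H) i).1 = (chk ins (.ini (pw n .z) H) i).2 := by
    intro i
    simp only [hH, chk, if_true]
    split_ifs with e0 e1
    · subst e0
      simp [st0]
    · rfl
    · have f0 : (i : ℕ) ≠ 0 := fun h5 => e0 (Fin.ext h5)
      have f1 : (i : ℕ) ≠ 1 := fun h5 => e1 (Fin.ext (by simpa using h5))
      simp [st0, f0, f1, pw]
  have k1 := key .z (by simp [cnt, wt, col]) (mis_z ins n) (not_err ins .z .z)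
  have k2 := key (.ini (pw n .z) H) (sp0_cnt 2 (.ini _ _ ⟨n, rfl⟩ (hs_sp0 hHs)))
    (mis_false ins n hHs)
    (not_err ins (.ini _ _ ⟨n, rfl⟩ (hs_sp0 hHs)) (.ini _ _ hchk hG))
  have hu : u = .z ∨ u = .k0 0 ∨ u = .tau := by
    rcases k1 with h | h
    · exact .inl h.symm
    · cases h with
      | root h =>
        rcases rt_z_inv ins h with rfl | rfl
        · exact .inr (.inl rfl)
        · exact .inr (.inr rfl)
  rcases k2 with h | h
  · rcases hu with rfl | rfl | rfl <;> simp at h
  · rcases hu with rfl | rfl | rfl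
    all_goals
      cases h with
      | root h =>
        rcases rt_ini_inv ins h with h | h | ⟨i, h | h⟩ <;> simp at h

theorem body_iff (n : ℕ) : Body ins n ↔ ¬ ∃ k, Acc ins 0 (st0 (N + 3) n k) :=
  ⟨fun h h' => not_body ins n h' h, body_of_not_acc ins n⟩

end Pool.Agent.V11232.OSR
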