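import Mathlib
import Pool.Agent.V11232.OSR.Final

/-!
The sentence, its meaning, its code.
-/

set_option autoImplicit false

namespace Pool.Agent.V11232.OSR

open Pool.Agent.Helper273.Machine

/-- there is a walk of length `n + 1` from `a` to `b` -/
def wf : ℕ → ℕ → ℕ → PF
  | 0, a, b => .rel a b
  | n + 1, a, b =>
    .ex (if a = 20 then 21 else 20) (.and (.rel a (if a = 20 then 21 else 20))
      (wf n (if a = 20 then 21 else 20) b))

/-- colour test -/
def colF (c : Fin 5) (a : ℕ) : PF := wf (c.val + 4) a a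

/-- current variable -/
def cu (b : Bool) : ℕ := if b then 10 else 9

/-- the next colour -/
def nc (b : Bool) : Fin 5 := if b then 3 else 4

/-- the counting formula -/
def psiF : ℕ → Bool → PF
  | 0, b => .ex (cu (!b)) (.and (.rel (cu b) (cu (!b))) (colF (nc b) (cu (!b))))
  | j + 1, b => .or (.ex 11 (.and (.rel (cu b) 11) (colF 0 11)))
      (.ex (cu (!b)) (.and (.and (.rel (cu b) (cu (!b))) (colF (nc b) (cu (!b)))) (psiF j (!b))))

/-- the wrong input formula -/
def misF (n : ℕ) : PF := .ex 9 (.and (.and (.rel 8 9) (colF 3 9)) (psiF n false))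

/-- the error formula -/
def errF : PF :=
  .ex 11 (.ex 12 (.ex 13 (.ex 14 (.and (.rel 8 11) (.and (colF 0 11) (.and (.rel 8 12)
    (.and (colF 0 12) (.and (.rel 11 13) (.and (colF 1 13) (.and (.rel 12 14) (.and (colF 2 14)
      (.and (colF 0 14) (.rel 13 14)))))))))))))

/-- the equations -/
def eqF : PF :=
  .or (.eq 8 7) (.or (.eq 8 0) (.or (.eq 8 1) (.or (.eq 8 2) (.or (.eq 8 3) (.or (.eq 8 4)
    (.or (.eq 8 5) (.eq 8 6)))))))

/-- the cycle -/
def cycF : PF :=
  .and (.rel 0 1) (.and (.rel 1 2) (.and (.rel 2 3) (.and (.rel 3 4) (.and (.rel 4 5)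
    (.and (.rel 5 6) (.rel 6 0))))))

/-- the sentence around the wrong input formula -/
def outF (m : PF) : PF :=
  .ex 0 (.ex 1 (.ex 2 (.ex 3 (.ex 4 (.ex 5 (.ex 6 (.ex 7 (.and cycF
    (.all 8 (.or eqF (.or (.rel 8 7) (.or m errF))))))))))))

/-- the sentence -/
def phi (n : ℕ) : PF := outF (misF n)

theorem wf_sat {T : Type} (r : T → T → Prop) (n : ℕ) : ∀ (a b : ℕ) (ρ : ℕ → T),
    b ≠ 20 → b ≠ 21 → ((wf n a b).Sat r ρ ↔ Walk r (n + 1) (ρ a) (ρ b)) := by
  induction n with
  | zero =>
    intro a b ρ _ _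
    simp [wf, PF.Sat, Walk]
  | succ n ih =>
    intro a b ρ h0 h1
    have e1 : ∀ x : T, Function.update ρ (if a = 20 then 21 else 20) x a = ρ a := by
      intro x
      rw [Function.update_of_ne]
      split_ifs with h <;> omega
    have e2 : ∀ x : T, Function.update ρ (if a = 20 then 21 else 20) x b = ρ b := by
      intro x
      rw [Function.update_of_ne]
      split_ifs with h <;> omega
    rw [wf, PF.Sat]
    simp only [PF.Sat]
    rw [Walk]
    refine exists_congr fun x => ?_
    rw [ih _ _ _ h0 h1, e1, e2, Function.update_self]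

theorem colF_sat {T : Type} (r : T → T → Prop) (c : Fin 5) (a : ℕ) (ρ : ℕ → T)
    (h0 : a ≠ 20) (h1 : a ≠ 21) : (colF c a).Sat r ρ ↔ Walk r (c.val + 5) (ρ a) (ρ a) :=
  wf_sat r (c.val + 4) a a ρ h0 h1

variable {N L : ℕ}
variable (ins : Fin (L + 1) → MI (N + 3) (Fin (L + 1)))

theorem colF_sat' (c : Fin 5) (a : ℕ) (ρ : ℕ → G N L Empty)
    (h0 : a ≠ 20) (h1 : a ≠ 21) : (colF c a).Sat (Stp ins) ρ ↔ 0 < cnt c (ρ a) := by
  rw [colF_sat _ c a ρ h0 h1, walk_iff]

theorem cu_ne (b : Bool) : cu b ≠ 20 ∧ cu b ≠ 21 ∧ cu b ≠ 11 := by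
  cases b <;> simp [cu]

theorem cu_not (b : Bool) : cu b ≠ cu (!b) := by
  cases b <;> simp [cu]

theorem psiF_sat (j : ℕ) : ∀ (b : Bool) (ρ : ℕ → G N L Empty),
    (psiF j b).Sat (Stp ins) ρ ↔ Psi ins j b (ρ (cu b)) := by
  induction j with
  | zero =>
    intro b ρ
    simp only [psiF, PF.Sat, Psi]
    refine exists_congr fun x => ?_
    rw [colF_sat' ins _ _ _ (cu_ne _).1 (cu_ne _).2.1, Function.update_self,
      Function.update_of_ne (cu_not b)]
    rfl
  | succ j ih =>
    intro b ρ
    simp only [psiF, PF.Sat, Psi]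
    refine or_congr ?_ ?_
    · refine exists_congr fun x => ?_
      rw [colF_sat' ins _ _ _ (by omega) (by omega), Function.update_self,
        Function.update_of_ne (cu_ne b).2.2]
    · refine exists_congr fun x => ?_
      rw [colF_sat' ins _ _ _ (cu_ne _).1 (cu_ne _).2.1, ih, Function.update_self,
        Function.update_of_ne (cu_not b), and_assoc]
      rfl

theorem misF_sat (n : ℕ) (ρ : ℕ → G N L Empty) :
    (misF n).Sat (Stp ins) ρ ↔ Mis ins n (ρ 8) := by
  simp only [misF, PF.Sat, Mis]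
  refine exists_congr fun x => ?_
  rw [colF_sat' ins _ _ _ (by omega) (by omega), psiF_sat]
  simp [cu, and_assoc]

theorem errF_sat (ρ : ℕ → G N L Empty) :
    errF.Sat (Stp ins) ρ ↔ Err ins (ρ 8) := by
  simp only [errF, PF.Sat, Err]
  refine exists_congr fun x => exists_congr fun y => exists_congr fun z => exists_congr fun w => ?_
  rw [colF_sat' ins _ _ _ (by omega) (by omega), colF_sat' ins _ _ _ (by omega) (by omega),
    colF_sat' ins _ _ _ (by omega) (by omega), colF_sat' ins _ _ _ (by omega) (by omega),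
    colF_sat' ins _ _ _ (by omega) (by omega)]
  simp [Function.update_apply]

theorem phi_sat (n : ℕ) (ρ : ℕ → G N L Empty) :
    (phi n).Sat (Stp ins) ρ ↔ Body ins n := by
  simp only [phi, outF, PF.Sat, Body]
  refine exists_congr fun v0 => exists_congr fun v1 => exists_congr fun v2 =>
    exists_congr fun v3 => exists_congr fun v4 => exists_congr fun v5 => exists_congr fun v6 =>
    exists_congr fun u => and_congr ?_ (forall_congr' fun y => or_congr ?_ (or_congr ?_
      (or_congr ?_ ?_)))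
  · simp [cycF, PF.Sat, Function.update_apply]
  · simp [eqF, PF.Sat, Function.update_apply]
  · simp [Function.update_apply]
  · rw [misF_sat]; simp
  · rw [errF_sat]; simp

theorem wf_fv (n : ℕ) : ∀ a b : ℕ, (wf n a b).fv ⊆ {a, b} := by
  induction n with
  | zero => intro a b; simp [wf, PF.fv]
  | succ n ih =>
    intro a b i hi
    simp only [wf, PF.fv, Finset.mem_erase, Finset.mem_union, Finset.mem_insert,
      Finset.mem_singleton] at hi ⊢
    obtain ⟨h1, h2 | h2⟩ := hi
    · rcases h2 with h2 | h2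
      · exact .inl h2
      · exact absurd h2 h1
    · have := ih _ _ h2
      simp only [Finset.mem_insert, Finset.mem_singleton] at this
      rcases this with h3 | h3
      · exact absurd h3 h1
      · exact .inr h3

theorem colF_fv (c : Fin 5) (a i : ℕ) (h : i ∈ (colF c a).fv) : i = a := by
  have := wf_fv _ _ _ h
  simpa using this

theorem psiF_fv (j : ℕ) : ∀ (b : Bool) (i : ℕ), i ∈ (psiF j b).fv → i = cu b := by
  induction j with
  | zero =>
    intro b i hi
    simp only [psiF, PF.fv, Finset.mem_erase, Finset.mem_union, Finset.mem_insert,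
      Finset.mem_singleton] at hi
    obtain ⟨h1, (h2 | h2) | h2⟩ := hi
    · exact h2
    · exact absurd h2 h1
    · exact absurd (colF_fv _ _ _ h2) h1
  | succ j ih =>
    intro b i hi
    simp only [psiF, PF.fv, Finset.mem_erase, Finset.mem_union, Finset.mem_insert,
      Finset.mem_singleton] at hi
    rcases hi with ⟨h1, (h2 | h2) | h2⟩ | ⟨h1, ((h2 | h2) | h2) | h2⟩
    · exact h2
    · exact absurd h2 h1
    · exact absurd (colF_fv _ _ _ h2) h1
    · exact h2
    · exact absurd h2 h1
    · exact absurd (colF_fv _ _ _ h2) h1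
    · exact absurd (ih _ _ h2) h1

theorem misF_fv (n i : ℕ) (hi : i ∈ (misF n).fv) : i = 8 := by
  simp only [misF, PF.fv, Finset.mem_erase, Finset.mem_union, Finset.mem_insert,
    Finset.mem_singleton] at hi
  obtain ⟨h1, ((h2 | h2) | h2) | h2⟩ := hi
  · exact h2
  · exact absurd h2 h1
  · exact absurd (colF_fv _ _ _ h2) h1
  · exact absurd (psiF_fv _ _ _ h2) h1

theorem errF_fv (i : ℕ) (hi : i ∈ errF.fv) : i = 8 := by
  have h := fun (c : Fin 5) (a : ℕ) => colF_fv c a i
  simp only [errF, PF.fv, Finset.mem_erase, Finset.mem_union, Finset.mem_insert,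
    Finset.mem_singleton] at hi
  obtain ⟨h1, h2, h3, h4, h5⟩ := hi
  rcases h5 with (h5 | h5) | h5 | (h5 | h5) | h5 | (h5 | h5) | h5 | (h5 | h5) | h5 | h5 | (h5 | h5)
  all_goals first
    | exact h5
    | exact absurd h5 ‹_›
    | exact absurd (h _ _ h5) ‹_›

theorem phi_fv (n : ℕ) : (phi n).fv = ∅ := by
  rw [Finset.eq_empty_iff_forall_notMem]
  intro i hi
  have hm := misF_fv n i
  have he := errF_fv i
  simp only [phi, outF, cycF, eqF, PF.fv, Finset.mem_erase, Finset.mem_union, Finset.mem_insert,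
    Finset.mem_singleton] at hi
  obtain ⟨h0, h1, h2, h3, h4, h5, h6, h7, hi⟩ := hi
  rcases hi with hi | ⟨h8, hi⟩
  · omega
  · rcases hi with hi | (hi | hi) | hi | hi
    · omega
    · omega
    · omega
    · exact h8 (hm hi)
    · exact h8 (he hi)

/-! codes -/

/-- the code of a step of the counting formula -/
def gs (b : Bool) (m : ℕ) : ℕ :=
  6 * Nat.pair (PF.ex 11 (.and (.rel (cu b) 11) (colF 0 11))).code
    (6 * Nat.pair (cu (!b)) (6 * Nat.pair (PF.and (.rel (cu b) (cu (!b)))
      (colF (nc b) (cu (!b)))).code m + 2) + 4) + 3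

theorem gs_primrec (b : Bool) : Primrec (gs b) := by
  unfold gs
  refine Primrec.nat_add.comp (Primrec.nat_mul.comp (Primrec.const 6) (Primrec₂.natPair.comp
    (Primrec.const _) (Primrec.nat_add.comp (Primrec.nat_mul.comp (Primrec.const 6)
      (Primrec₂.natPair.comp (Primrec.const _) (Primrec.nat_add.comp (Primrec.nat_mul.comp
        (Primrec.const 6) (Primrec₂.natPair.comp (Primrec.const _) Primrec.id))
          (Primrec.const 2)))) (Primrec.const 4)))) (Primrec.const 3)

/-- the codes of the counting formulas -/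
def cs (j : ℕ) : ℕ × ℕ :=
  Nat.rec ((psiF 0 false).code, (psiF 0 true).code) (fun _ p => (gs false p.2, gs true p.1)) j

theorem cs_primrec : Primrec cs := by
  unfold cs
  refine Primrec.nat_rec₁ _ ?_
  exact ((gs_primrec false).comp (Primrec.snd.comp Primrec.snd)).pair
    ((gs_primrec true).comp (Primrec.fst.comp Primrec.snd))

theorem cs_eq (j : ℕ) : cs j = ((psiF j false).code, (psiF j true).code) := by
  induction j with
  | zero => rfl
  | succ j ih =>
    have : cs (j + 1) = (gs false (cs j).2, gs true (cs j).1) := rfl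
    rw [this, ih]
    rfl

theorem phi_code_primrec : Primrec (fun n => (phi n).code) := by
  have h : ∀ n, (phi n).code = (6 * Nat.pair 0 (6 * Nat.pair 1 (6 * Nat.pair 2
      (6 * Nat.pair 3 (6 * Nat.pair 4 (6 * Nat.pair 5 (6 * Nat.pair 6 (6 * Nat.pair 7
        (6 * Nat.pair cycF.code (6 * Nat.pair 8 (6 * Nat.pair eqF.code
          (6 * Nat.pair (PF.rel 8 7).code (6 * Nat.pair (6 * Nat.pair 9
            (6 * Nat.pair (PF.and (.rel 8 9) (colF 3 9)).code (cs n).1 + 2) + 4) errF.code + 3)
              + 3) + 3) + 5) + 2) + 4) + 4) + 4) + 4) + 4) + 4) + 4) + 4) := by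
    intro n
    rw [cs_eq]
    rfl
  have p1 : ∀ (c d : ℕ) (g : ℕ → ℕ), Primrec g → Primrec (fun n => 6 * Nat.pair c (g n) + d) := by
    intro c d g hg
    exact Primrec.nat_add.comp (Primrec.nat_mul.comp (Primrec.const 6)
      (Primrec₂.natPair.comp (Primrec.const c) hg)) (Primrec.const d)
  have p2 : ∀ (c d : ℕ) (g : ℕ → ℕ), Primrec g → Primrec (fun n => 6 * Nat.pair (g n) c + d) := by
    intro c d g hg
    exact Primrec.nat_add.comp (Primrec.nat_mul.comp (Primrec.const 6)
      (Primrec₂.natPair.comp hg (Primrec.const c))) (Primrec.const d)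
  refine Primrec.of_eq ?_ (fun n => (h n).symm)
  refine p1 _ _ _ (p1 _ _ _ (p1 _ _ _ (p1 _ _ _ (p1 _ _ _ (p1 _ _ _ (p1 _ _ _ (p1 _ _ _
    (p1 _ _ _ (p1 _ _ _ (p1 _ _ _ (p1 _ _ _ (p2 _ _ _ (p1 _ _ _ (p1 _ _ _
      (Primrec.fst.comp cs_primrec)))))))))))))))

/-- a recursively enumerable set which is not computable -/
def SS : Set ℕ := {n | (Nat.Partrec.Code.eval (Denumerable.ofNat Nat.Partrec.Code n) 0).Dom}

theorem ss_re : REPred (fun n => n ∈ SS) := by
  have h : Partrec (fun n : ℕ => Nat.Partrec.Code.eval (Denumerable.ofNat Nat.Partrec.Code n) 0) :=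
    Nat.Partrec.Code.eval_part.comp (Computable.ofNat Nat.Partrec.Code) (Computable.const (0 : ℕ))
  exact h.dom_re

theorem ss_not : ¬ ComputablePred (fun n => n ∈ SS) := by
  intro h
  refine ComputablePred.halting_problem 0 ?_
  have : ManyOneReducible (fun c : Nat.Partrec.Code => (Nat.Partrec.Code.eval c 0).Dom)
      (fun n => n ∈ SS) := by
    refine ⟨Encodable.encode, Computable.encode, ?_⟩
    intro c
    simp [SS, Denumerable.ofNat_encode]
  exact ComputablePred.computable_of_manyOneReducible this h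

/-- the main theorem -/
theorem main : ∃ (S : Type) (_ : Fintype S) (ar : S → ℕ) (R : Set (Tm S ar ℕ × Tm S ar ℕ)),
    (∃ c, ar c = 0) ∧ R.Finite ∧ (∀ ρ ∈ R, IsRule ρ) ∧
    ¬ ∃ f : ℕ → Bool, Computable f ∧ ∀ φ : PF, φ.fv = ∅ →
      (f φ.code = true ↔ ∀ v : ℕ → Tm S ar Empty, φ.Sat (Step R) v) := by
  obtain ⟨N, L, ins, _, hS⟩ := exists_machine SS ss_re
  refine ⟨Sym N L, inferInstance, ar, RS ins, ⟨.z, rfl⟩, rs_finite ins, rs_isRule ins, ?_⟩
  rintro ⟨f, hf, h⟩
  apply ss_not
  have h1 : ∀ n, n ∈ SS ↔ ¬ (f (phi n).code = true) := by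
    intro n
    have h2 : (∀ v : ℕ → Tm (Sym N L) ar Empty, (phi n).Sat (Step (RS ins)) v) ↔ Body ins n := by
      constructor
      · intro h3
        have h4 := h3 (fun _ => e .z)
        have h5 := (PF.sat_iso (Stp ins) (Step (RS ins)) eEquiv (step_iff ins) (phi n)
          (fun _ => .z)).2 h4
        exact (phi_sat ins n _).1 h5
      · intro h3 v
        have h5 := (PF.sat_iso (Stp ins) (Step (RS ins)) eEquiv (step_iff ins) (phi n)
          (fun i => eEquiv.symm (v i))).1 ((phi_sat ins n _).2 h3)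
        simpa using h5
    rw [h _ (phi_fv n), h2, body_iff, not_not, hS n]
    rfl
  have h3 : Computable (fun n => !(f (phi n).code)) :=
    (Primrec.not.to_comp).comp (hf.comp phi_code_primrec.to_comp)
  refine ⟨fun n => decidable_of_iff _ (h1 n).symm, ?_⟩
  refine h3.of_eq fun n => ?_
  have := h1 n
  by_cases hn : n ∈ SS
  · have h4 := this.1 hn
    simp [hn, h4]
  · have h4 : f (phi n).code = true := by
      by_contra h5
      exact hn (this.2 h5)
    simp [hn, h4]

end Pool.Agent.V11232.OSR
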